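import Pool.Agent.R938.ORF.Main

/-!
# Normalisation of sums of equal functions
-/

set_option autoImplicit false

namespace Pool.Agent.U959.OO

open MeasureTheory Set Filter Topology
open scoped ENNReal InnerProductSpace
open Pool.Agent.W695.KH (Eu)
open Pool.Agent.R476.OR
open Pool.Agent.R938.ORF

variable {n : ℕ}

theorem nrm1 (hn : 1 ≤ n) {V V' : ℝ → ℝ} (hV : CV V V') (E : ℝ)
    (hb : Bornology.IsBounded (KV (fun _ : Fin n => V) E))
    (hx : ∃ x, SV (fun _ : Fin n => V) x < E) :
    ∃ l a d k : ℝ, 0 < l ∧ 0 < d ∧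
      NV (fun t => l * V (a + d * t) + k) (fun t => l * d * V' (a + d * t)) ∧
      LVL (fun (_ : Fin n) t => l * V (a + d * t) + k) (l * E + ∑ _i : Fin n, k) ∧
      ∀ x : Eu (Fin n), x ∈ KV (fun (_ : Fin n) t => l * V (a + d * t) + k)
        (l * E + ∑ _i : Fin n, k) ↔ WithLp.toLp 2 (fun i => a + d * x i) ∈ KV (fun _ => V) E := by
  obtain ⟨x0, hx0⟩ := hx
  have hVf : ∀ _i : Fin n, CV ((fun _ : Fin n => V) _i) ((fun _ : Fin n => V') _i) := fun _ => hV
  have hco := fun i => coer_all hVf hb hx0 i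
  obtain ⟨l, hl, hopt⟩ := opt hn (fun i => cv_cont (hVf i)) (fun i => cv_convex (hVf i))
    (bdd_all hco) hx0
  obtain ⟨c, B, hcB⟩ := hco ⟨0, hn⟩
  obtain ⟨a, d, k, hd, hNV⟩ := norm_one hV hcB hl
  obtain ⟨C, hC0, hC⟩ := vol_aff (fun _ : Fin n => a) (fun _ : Fin n => d) (fun _ => hd)
  have hSV : ∀ x : Eu (Fin n), SV (fun (_ : Fin n) t => l * V (a + d * t) + k) x
      = l * SV (fun _ => V) (WithLp.toLp 2 (fun i => a + d * x i)) + ∑ _i : Fin n, k := by
    intro x
    unfold SV
    rw [Finset.sum_add_distrib, Finset.mul_sum]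
  have hmem : ∀ (s : ℝ) (x : Eu (Fin n)),
      x ∈ KV (fun (_ : Fin n) t => l * V (a + d * t) + k) (l * s + ∑ _i : Fin n, k)
      ↔ WithLp.toLp 2 (fun i => a + d * x i) ∈ KV (fun _ => V) s := by
    intro s x
    change SV _ x ≤ _ ↔ SV _ _ ≤ s
    rw [hSV x]
    constructor
    · intro h
      have h1 : l * SV (fun _ => V) (WithLp.toLp 2 (fun i => a + d * x i)) ≤ l * s := by linarith
      exact le_of_mul_le_mul_left h1 hl
    · intro h
      have := mul_le_mul_of_nonneg_left h hl.le
      linarith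
  have hvol : ∀ s : ℝ, volume (KV (fun (_ : Fin n) t => l * V (a + d * t) + k)
      (l * s + ∑ _i : Fin n, k)) = C * volume (KV (fun _ : Fin n => V) s) := by
    intro s
    rw [← hC]
    congr 1
    ext x
    exact hmem s x
  refine ⟨l, a, d, k, hl, hd, hNV, ⟨?_, ?_, ?_⟩, hmem E⟩
  · exact bdd_all (fun _ => ⟨_, _, coer_aff hcB hl hd⟩) _
  · rw [hvol]
    have := KV_pos (fun i => cv_cont (hVf i)) hx0
    exact ENNReal.mul_pos hC0 this.ne'
  · intro s
    have hs : s = l * ((s - ∑ _i : Fin n, k) / l) + ∑ _i : Fin n, k := by field_simp; ring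
    generalize (s - ∑ _i : Fin n, k) / l = s1 at hs
    rw [hs, hvol, hvol]
    have key := hopt s1
    have ex : ∀ r : ℝ, ENNReal.ofReal (Real.exp (-(l * r + ∑ _i : Fin n, k)))
        = ENNReal.ofReal (Real.exp (-(l * r))) * ENNReal.ofReal (Real.exp (-∑ _i : Fin n, k)) := by
      intro r
      rw [← ENNReal.ofReal_mul (Real.exp_pos _).le, ← Real.exp_add]
      congr 2
      ring
    rw [ex, ex]
    calc C * volume (KV (fun _ : Fin n => V) s1) * (ENNReal.ofReal (Real.exp (-(l * s1))) *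
          ENNReal.ofReal (Real.exp (-∑ _i : Fin n, k)))
        = (volume (KV (fun _ : Fin n => V) s1) * ENNReal.ofReal (Real.exp (-(l * s1)))) *
          (C * ENNReal.ofReal (Real.exp (-∑ _i : Fin n, k))) := by ring
      _ ≤ (volume (KV (fun _ : Fin n => V) E) * ENNReal.ofReal (Real.exp (-(l * E)))) *
          (C * ENNReal.ofReal (Real.exp (-∑ _i : Fin n, k))) := mul_le_mul_left key _
      _ = _ := by ring

/-- densities which are symmetric about some point and have mean zero are even -/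
theorem even_of {W W' : ℝ → ℝ} (hW : NV W W') (z : ℝ) (hz : ∀ t, W (2 * z - t) = W t) :
    (∀ t, W (-t) = W t) ∧ bV W = 0 := by
  have hi1 : Integrable fun t : ℝ => t * Real.exp (-W t) := by
    refine Integrable.mono' (hW.nd.int0.add hW.nd.int2)
      (continuous_id.mul hW.nd.cont).aestronglyMeasurable (Eventually.of_forall fun t => ?_)
    rw [Real.norm_eq_abs, abs_mul, abs_of_pos (Real.exp_pos _), Pi.add_apply]
    have h1 : |t| ≤ 1 + t ^ 2 := by
      nlinarith [sq_abs t, sq_nonneg (|t| - 1), abs_nonneg t]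
    nlinarith [mul_le_mul_of_nonneg_right h1 (Real.exp_pos (-W t)).le]
  have h0 : z = 0 := by
    have h1 : ∫ t : ℝ, t * Real.exp (-W t) = ∫ t : ℝ, (2 * z - t) * Real.exp (-W (2 * z - t)) :=
      (integral_sub_left_eq_self (fun t : ℝ => t * Real.exp (-W t)) volume (2 * z)).symm
    have h2 : ∫ t : ℝ, (2 * z - t) * Real.exp (-W (2 * z - t)) =
        2 * z * (∫ t : ℝ, Real.exp (-W t)) - ∫ t : ℝ, t * Real.exp (-W t) := by
      rw [← integral_const_mul, ← integral_sub (hW.nd.int0.const_mul _) hi1]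
      refine integral_congr_ae (Eventually.of_forall fun t => ?_)
      dsimp only
      rw [hz]
      ring
    have h3 : ∫ t : ℝ, t * Real.exp (-W t) = 0 := hW.nd.mean
    have h4 : ∫ t : ℝ, Real.exp (-W t) = 1 := hW.nd.mass
    rw [h2, h3, h4] at h1
    linarith
  have he : ∀ t, W (-t) = W t := by
    intro t
    have := hz t
    rw [h0] at this
    simpa using this
  refine ⟨he, ?_⟩
  have h1 : bV W = -bV W := by
    conv_lhs => unfold bV
    rw [← integral_neg_eq_self (fun t : ℝ => t * W t * Real.exp (-W t)) volume]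
    unfold bV
    rw [← integral_neg]
    refine integral_congr_ae (Eventually.of_forall fun t => ?_)
    dsimp only
    rw [he]
    ring
  linarith

theorem sym_aff {V : ℝ → ℝ} (z l a d k : ℝ) (hd : 0 < d) (hz : ∀ t, V (2 * z - t) = V t) (t : ℝ) :
    l * V (a + d * (2 * ((z - a) / d) - t)) + k = l * V (a + d * t) + k := by
  have e : a + d * (2 * ((z - a) / d) - t) = 2 * z - (a + d * t) := by
    field_simp
    ring
  rw [e, hz]

end Pool.Agent.U959.OO
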