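import Pool.Agent.U959.OO.Trf
import Pool.Agent.U959.OO.Nrm
import Pool.Agent.Y506.RG.Star
import Pool.Agent.Y506.PV.Stb

/-!
# Concentration for `C¹` functions, in general position
-/

set_option autoImplicit false

namespace Pool.Agent.U959.OO

open MeasureTheory Set Filter Topology
open scoped ENNReal InnerProductSpace
open Pool.Agent.W695.KH (Eu EU EV VV Sm Pot ga Nn)
open Pool.Agent.U959.OC
open Pool.Agent.R372.OP.SYM (Lc)
open Pool.Agent.R476.OR (NV CV SV KV LVL S_STI S_COV S_FLD bb bV sg)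
open Pool.Agent.Y506.FF (LCon)
open Pool.Agent.Y506.RG (EW VW EW_aff)
open Pool.Agent.Y506.PV (ind VV_VW EV_EW)

variable {n : ℕ}

/-- concentration at the scale given by the variance of the sum of the coordinates -/
def PP (κ : ℝ) (K : Set (Eu (Fin n))) (R : Fin n → Fin n → Prop) : Prop :=
  ∀ s : ℝ, 0 < s → VW (ind K) (fun x => ∑ i, x i) ≤ s * n → ∀ v : Eu (Fin n) → ℝ,
  ContDiff ℝ 1 v → (∀ x, |v x| ≤ 1) → (∀ x, ‖fderiv ℝ v x‖ ≤ κ / Real.sqrt s) →
  VW (ind (K ∩ coneE R)) v ≤ 1 / 25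

theorem VV_lin {D : Set (Eu (Fin n))} (hD : IsCompact D) (hv : 0 < volume D)
    (g : Eu (Fin n) → ℝ) (hg : Continuous g) (d c : ℝ) :
    VV D (fun z => d * g z + c) = d ^ 2 * VV D g := by
  have hfin : volume D ≠ ⊤ := hD.measure_lt_top.ne
  have hV : 0 < (volume D).toReal := ENNReal.toReal_pos hv.ne' hfin
  have i1 : IntegrableOn g D := hg.continuousOn.integrableOn_compact hD
  have i2 : IntegrableOn (fun x => g x ^ 2) D := (hg.pow 2).continuousOn.integrableOn_compact hD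
  have e1 : ∫ x in D, (d * g x + c) = d * (∫ x in D, g x) + c * (volume D).toReal := by
    rw [integral_add (i1.const_mul d) (integrableOn_const hfin), integral_const_mul,
      setIntegral_const, smul_eq_mul, Measure.real, mul_comm c]
  have e2 : ∫ x in D, (d * g x + c) ^ 2 = d ^ 2 * (∫ x in D, g x ^ 2) +
      2 * d * c * (∫ x in D, g x) + c ^ 2 * (volume D).toReal := by
    have h1 : ∀ x, (d * g x + c) ^ 2 = (d ^ 2 * g x ^ 2 + 2 * d * c * g x) + c ^ 2 := fun x => by ring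
    have i3 : IntegrableOn (fun x => d ^ 2 * g x ^ 2 + 2 * d * c * g x) D :=
      (i2.const_mul _).add (i1.const_mul _)
    simp only [h1]
    rw [integral_add i3 (integrableOn_const hfin), integral_add (i2.const_mul _) (i1.const_mul _),
      integral_const_mul, integral_const_mul, setIntegral_const, smul_eq_mul, Measure.real,
      mul_comm (c ^ 2)]
  unfold VV EV
  rw [e1, e2]
  field_simp
  ring

/-- the vector of ones -/
noncomputable def on (n : ℕ) : Eu (Fin n) := WithLp.toLp 2 fun _ => 1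

theorem on_norm : ‖on n‖ ^ 2 = n := by
  rw [EuclideanSpace.real_norm_sq_eq]
  simp [on]

theorem on_inner (x : Eu (Fin n)) : ⟪x, on n⟫_ℝ = ∑ i, x i := by
  rw [real_inner_comm, EuclideanSpace.inner_eq_star_dotProduct]
  simp [dotProduct, on]

theorem SV_cont' {V : ℝ → ℝ} (hV : Continuous V) : Continuous (SV (fun _ : Fin n => V)) := by
  unfold SV
  refine continuous_finsetSum _ fun i _ => ?_
  fun_prop

/-- scaling -/
theorem scal {d : ℝ} (hd : 0 < d) : ∃ A : Eu (Fin n) ≃L[ℝ] Eu (Fin n), (∀ x, A x = d⁻¹ • x) ∧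
    ∀ z, A.symm z = d • z := by
  obtain ⟨A, hA⟩ : ∃ A : Eu (Fin n) ≃L[ℝ] Eu (Fin n), ∀ x, A x = d⁻¹ • x :=
    ⟨(LinearEquiv.smulOfNeZero ℝ (Eu (Fin n)) d⁻¹ (inv_ne_zero hd.ne')).toContinuousLinearEquiv,
      fun x => rfl⟩
  refine ⟨A, hA, fun z => A.injective ?_⟩
  rw [A.apply_symm_apply, hA, smul_smul, inv_mul_cancel₀ hd.ne', one_smul]

/-- positive volume of the part in the cone -/
theorem cone_pos (R : Fin n → Fin n → Prop) (hLc : 0 < Lc R) {K : Set (Eu (Fin n))}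
    (hKm : MeasurableSet K) (hKp : 0 < volume K)
    (hs : ∀ (p : Equiv.Perm (Fin n)) (x : Eu (Fin n)),
      (WithLp.toLp 2 fun i => x (p i) : Eu (Fin n)) ∈ K ↔ x ∈ K) :
    0 < volume (K ∩ coneE R) := by
  have hKs : ∀ (p : Equiv.Perm (Fin n)) (x : Eu (Fin n)),
      K.indicator (1 : Eu (Fin n) → ℝ≥0∞) (WithLp.toLp 2 fun i => x (p i)) = K.indicator 1 x := by
    intro p x
    by_cases hx : x ∈ K
    · rw [indicator_of_mem ((hs p x).2 hx), indicator_of_mem hx]
      rfl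
    · rw [indicator_of_notMem (fun h => hx ((hs p x).1 h)), indicator_of_notMem hx]
  have e := symU R (fun _ => 1) (K.indicator 1) measurable_const (measurable_one.indicator hKm) hKs
  simp only [one_mul, Finset.sum_const, LE_card, nsmul_eq_mul, mul_one] at e
  rw [lintegral_const_mul' _ _ (ENNReal.natCast_ne_top _)] at e
  rw [pos_iff_ne_zero]
  intro h0
  have h1 : ∫⁻ x in coneE R, K.indicator (1 : Eu (Fin n) → ℝ≥0∞) x = 0 := by
    rw [lintegral_indicator_one hKm, Measure.restrict_apply hKm]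
    exact h0
  rw [h1, mul_zero, lintegral_indicator_one hKm] at e
  have h2 : ((Lc R : ℕ) : ℝ≥0∞) ≠ 0 := by exact_mod_cast hLc.ne'
  exact (mul_ne_zero h2 hKp.ne') e.symm

theorem KV_sym (V : ℝ → ℝ) (E : ℝ) (p : Equiv.Perm (Fin n)) (x : Eu (Fin n)) :
    (WithLp.toLp 2 fun i => x (p i) : Eu (Fin n)) ∈ KV (fun _ : Fin n => V) E ↔
      x ∈ KV (fun _ : Fin n => V) E := by
  unfold KV SV
  rw [mem_ofPred_eq, mem_ofPred_eq]
  have : ∑ i, V (x (p i)) = ∑ i, V (x i) := Equiv.sum_comp p fun i => V (x i)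
  rw [← this]

theorem cls1 (hsti : S_STI) (hcov : S_COV) (hfld : S_FLD) : ∃ κ : ℝ, 0 < κ ∧
    ∀ (n : ℕ) (V V' : ℝ → ℝ) (z E : ℝ), 1 ≤ n → CV V V' → (∀ t, V (2 * z - t) = V t) →
    Bornology.IsBounded (KV (fun _ : Fin n => V) E) → (∃ x, SV (fun _ : Fin n => V) x < E) →
    ∀ R : Fin n → Fin n → Prop, (∀ a b, R a b → R b a → a = b) →
    (∀ a b c, R a b → R b c → R a c) → PP κ (KV (fun _ : Fin n => V) E) R := by
  obtain ⟨κ, hκ, hcc⟩ := conc hsti (1 / 25) (by norm_num)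
  obtain ⟨c, C, hc, hC, hcov⟩ := hcov
  obtain ⟨CF, hCF, hfld⟩ := hfld
  have hsc : 0 < Real.sqrt c := Real.sqrt_pos.2 hc
  refine ⟨κ * Real.sqrt c, by positivity, fun n V V' z E hn hV hz hb hx R hanti htr => ?_⟩
  obtain ⟨l, a, d, k, hl, hd, hNV, hLVL, hmem⟩ := nrm1 hn hV E hb hx
  obtain ⟨W, hW⟩ : ∃ W : ℝ → ℝ, W = fun t => l * V (a + d * t) + k := ⟨_, rfl⟩
  obtain ⟨E', hE'⟩ : ∃ E', E' = l * E + ∑ _i : Fin n, k := ⟨_, rfl⟩
  rw [← hE'] at hLVL hmem
  have hfam : (fun (_ : Fin n) t => l * V (a + d * t) + k) = fun _ : Fin n => W := by rw [hW]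
  rw [hfam] at hLVL
  simp only [hfam] at hmem
  rw [← hW] at hNV
  obtain ⟨-, hbW⟩ := even_of hNV ((z - a) / d) (by
    rw [hW]
    exact fun t => sym_aff z l a d k hd hz t)
  have h4 := (hfld W _ hNV).1
  have hcv := (hcov n (fun _ => W) _ (fun _ => hNV) (fun _ => h4) E' hLVL (on n)).1
  have hbb : bb (fun _ : Fin n => W) = 0 := by
    ext i
    exact hbW
  rw [hbb, inner_zero_left, on_norm] at hcv
  simp only [on_inner] at hcv
  have hVc : Continuous V := continuous_iff_continuousAt.2 fun t => (hV.der t).continuousAt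
  have hWc : Continuous W := by rw [hW]; fun_prop
  intro s hs hvar v hv hv1 hvl
  -- the affine map
  obtain ⟨A, hA, hAs⟩ := scal (n := n) hd
  obtain ⟨x0, hx0⟩ : ∃ x0 : Eu (Fin n), x0 = WithLp.toLp 2 fun _ => a := ⟨_, rfl⟩
  obtain ⟨KK, hKK⟩ : ∃ KK, KK = KV (fun _ : Fin n => V) E := ⟨_, rfl⟩
  obtain ⟨KW, hKW⟩ : ∃ KW, KW = KV (fun _ : Fin n => W) E' := ⟨_, rfl⟩
  have hK1 : ∀ x, x ∈ KK ↔ A (x - x0) ∈ KW := by
    intro x
    rw [hKW, hmem, hKK]
    have e : (WithLp.toLp 2 (fun i => a + d * (A (x - x0)) i) : Eu (Fin n)) = x := by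
      ext i
      rw [hA, hx0]
      simp only [PiLp.smul_apply, PiLp.sub_apply, smul_eq_mul]
      field_simp
      ring
    rw [e]
  have hC1 : ∀ x, x ∈ coneE R ↔ A (x - x0) ∈ coneE R := by
    intro x
    have e : ∀ i, (A (x - x0)) i = d⁻¹ * (x i - a) := by
      intro i
      rw [hA, hx0]
      simp only [PiLp.smul_apply, PiLp.sub_apply, smul_eq_mul]
    constructor
    · intro h i j hij
      have := h i j hij
      rw [e, e]
      exact mul_le_mul_of_nonneg_left (by linarith) (inv_nonneg.2 hd.le)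
    · intro h i j hij
      have := h i j hij
      rw [e, e] at this
      have := le_of_mul_le_mul_left this (inv_pos.2 hd)
      linarith
  have hi1 : ∀ x, ind KK x = 1 * ind KW (A (x - x0)) := by
    intro x
    rw [one_mul]
    unfold ind
    by_cases h : x ∈ KK
    · rw [indicator_of_mem h, indicator_of_mem ((hK1 x).1 h)]
    · rw [indicator_of_notMem h, indicator_of_notMem (fun h' => h ((hK1 x).2 h'))]
  have hi2 : ∀ x, ind (KK ∩ coneE R) x = 1 * ind (KW ∩ coneE R) (A (x - x0)) := by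
    intro x
    rw [one_mul]
    unfold ind
    by_cases h : x ∈ KK ∩ coneE R
    · rw [indicator_of_mem h, indicator_of_mem (show A (x - x0) ∈ KW ∩ coneE R from
        ⟨(hK1 x).1 h.1, (hC1 x).1 h.2⟩)]
    · rw [indicator_of_notMem h, indicator_of_notMem
        (fun h' => h ⟨(hK1 x).2 h'.1, (hC1 x).2 h'.2⟩)]
  have hVW1 : ∀ f : Eu (Fin n) → ℝ, VW (ind KK) f = VW (ind KW) fun y => f (A.symm y + x0) := by
    intro f
    unfold VW
    rw [EW_aff A x0 1 one_pos _ _ hi1, EW_aff A x0 1 one_pos _ _ hi1]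
  have hVW2 : ∀ f : Eu (Fin n) → ℝ, VW (ind (KK ∩ coneE R)) f =
      VW (ind (KW ∩ coneE R)) fun y => f (A.symm y + x0) := by
    intro f
    unfold VW
    rw [EW_aff A x0 1 one_pos _ _ hi2, EW_aff A x0 1 one_pos _ _ hi2]
  rw [← hKK] at hvar ⊢
  rw [← hKW] at hcv
  have hcc' := hcc n W _ hNV E' hLVL R hanti htr
  rw [← hKW] at hcc'
  have hKWb : Bornology.IsBounded KW := by rw [hKW]; exact hLVL.bdd
  have hKWp : 0 < volume KW := by rw [hKW]; exact hLVL.pos
  have hKWcl : IsClosed KW := by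
    rw [hKW]
    exact isClosed_le (SV_cont' hWc) continuous_const
  have hKWc : IsCompact KW := Metric.isCompact_of_isClosed_isBounded hKWcl hKWb
  have hKWm : MeasurableSet KW := hKWcl.measurableSet
  have hn0 : (0 : ℝ) < n := by exact_mod_cast hn
  have hs0 : 0 < Real.sqrt s := Real.sqrt_pos.2 hs
  -- variance
  have e1 : VW (ind KK) (fun x => ∑ i, x i) = d ^ 2 * VW (ind KW) fun x => ∑ i, x i := by
    rw [hVW1]
    have e : (fun y : Eu (Fin n) => ∑ i, (A.symm y + x0) i) = fun y => d * (∑ i, y i) + n * a := by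
      funext y
      rw [hAs, hx0]
      simp [Finset.sum_add_distrib, Finset.mul_sum]
    rw [e, ← VV_VW KW hKWm, ← VV_VW KW hKWm]
    exact VV_lin hKWc hKWp _ (by fun_prop) d _
  have h5 : c * n ≤ VW (ind KW) fun x => ∑ i, x i := by
    refine le_trans (le_of_eq ?_) hcv
    simp
  have h6 : c * d ^ 2 ≤ s := by
    rw [e1] at hvar
    have h7 : d ^ 2 * (c * n) ≤ s * n := (mul_le_mul_of_nonneg_left h5 (by positivity)).trans hvar
    have h8 : (c * d ^ 2) * n ≤ s * n := by linarith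
    exact le_of_mul_le_mul_right h8 hn0
  have h7 : Real.sqrt c * d ≤ Real.sqrt s := by
    rw [← Real.sqrt_sq hd.le, ← Real.sqrt_mul hc.le]
    exact Real.sqrt_le_sqrt h6
  rw [hVW2, ← VV_VW _ (hKWm.inter (coneE_meas R))]
  refine hcc' _ ?_ ?_ ?_
  · exact hv.comp (A.symm.contDiff.add contDiff_const)
  · intro y
    exact hv1 _
  · intro y
    have hd' : HasFDerivAt (fun y => v (A.symm y + x0)) ((fderiv ℝ v (A.symm y + x0)).comp
        (A.symm : Eu (Fin n) →L[ℝ] Eu (Fin n))) y :=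
      ((hv.differentiable one_ne_zero _).hasFDerivAt).comp y (A.symm.hasFDerivAt.add_const x0)
    rw [hd'.fderiv]
    have hn1 : ‖(A.symm : Eu (Fin n) →L[ℝ] Eu (Fin n))‖ ≤ d :=
      ContinuousLinearMap.opNorm_le_bound _ hd.le fun z => by
        show ‖A.symm z‖ ≤ _
        rw [hAs, norm_smul, Real.norm_eq_abs, abs_of_pos hd]
    refine (ContinuousLinearMap.opNorm_comp_le _ _).trans ?_
    calc ‖fderiv ℝ v (A.symm y + x0)‖ * ‖(A.symm : Eu (Fin n) →L[ℝ] Eu (Fin n))‖
        ≤ (κ * Real.sqrt c / Real.sqrt s) * d :=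
          mul_le_mul (hvl _) hn1 (norm_nonneg _) (by positivity)
      _ = κ * (Real.sqrt c * d / Real.sqrt s) := by ring
      _ ≤ κ * 1 := mul_le_mul_of_nonneg_left ((div_le_one hs0).2 h7) hκ.le
      _ = κ := mul_one _

end Pool.Agent.U959.OO
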