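import Pool.Agent.U959.OO.Hlf
import Pool.Agent.R476.OR.Fin

/-!
# Sublevel sets of symmetric sums, intersected with order cones: final form
-/

set_option autoImplicit false

namespace Pool.Agent.U959.OO

open MeasureTheory Set Filter Topology
open scoped ENNReal InnerProductSpace
open Pool.Agent.W695.KH (Eu)
open Pool.Agent.U959.OC (coneE)
open Pool.Agent.R476.OR

theorem hsti : S_STI := sti fld two (Pool.Agent.R634.ORC.ibp two) (plw two)

theorem hcov : S_COV := Pool.Agent.R834.OR.cov (gtw two m4r) (plw two)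

theorem fin : ∃ c : ℝ, 0 < c ∧ ∀ (n : ℕ) (V : ℝ → ℝ≥0∞) (z : ℝ) (E : ℝ≥0∞)
    (R : Fin n → Fin n → Prop), 1 ≤ n → XV V → (∀ t, V (2 * z - t) = V t) →
    Bornology.IsBounded (KX (fun _ : Fin n => V) E) →
    (interior (KX (fun _ : Fin n => V) E)).Nonempty →
    (∀ a b, R a b → R b a → a = b) → (∀ a b c, R a b → R b c → R a c) →
    IsCompact (KX (fun _ : Fin n => V) E ∩ coneE R) ∧
    Convex ℝ (KX (fun _ : Fin n => V) E ∩ coneE R) ∧
    (interior (KX (fun _ : Fin n => V) E ∩ coneE R)).Nonempty ∧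
    ∀ μ : Measure (Eu (Fin n)), μ = (volume (KX (fun _ : Fin n => V) E ∩ coneE R))⁻¹ •
      volume.restrict (KX (fun _ : Fin n => V) E ∩ coneE R) →
    ∀ t : ℝ≥0∞, (∀ (u : Eu (Fin n)) (b : ℝ), u ≠ 0 →
      t * min (μ {x | ⟪u, x⟫_ℝ ≤ b}) (1 - μ {x | ⟪u, x⟫_ℝ ≤ b}) ≤
        liminf (fun ε : ℝ => (μ (Metric.thickening ε {x | ⟪u, x⟫_ℝ ≤ b}) - μ {x | ⟪u, x⟫_ℝ ≤ b}) /
          ENNReal.ofReal ε) (𝓝[>] 0)) →
    ∀ S : Set (Eu (Fin n)), μ S = 1 / 2 → ENNReal.ofReal c * t ≤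
      liminf (fun ε : ℝ => (μ (Metric.thickening ε S) - μ S) / ENNReal.ofReal ε) (𝓝[>] 0) := by
  obtain ⟨κ, hκ, H⟩ := cls1 hsti hcov fld
  have H2 := cls2 κ H
  have H3 := cls3 (κ / 2) H2
  obtain ⟨c, hc, H4⟩ := half_cone (κ / 2 / 2) (by positivity)
  refine ⟨c, hc, fun n V z E R hn hV hz hb hi hanti htr => ?_⟩
  obtain ⟨h3, h4, -⟩ := box n (fun _ => V) E fun _ => hV
  have hKc : IsCompact (KX (fun _ : Fin n => V) E) := Metric.isCompact_of_isClosed_isBounded h3 hb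
  have hKp : 0 < volume (KX (fun _ : Fin n => V) E) :=
    lt_of_lt_of_le (isOpen_interior.measure_pos volume hi) (measure_mono interior_subset)
  have hLc := Lc_pos R hanti htr
  have hsym : ∀ (p : Equiv.Perm (Fin n)) (x : Eu (Fin n)),
      (WithLp.toLp 2 fun i => x (p i) : Eu (Fin n)) ∈ KX (fun _ : Fin n => V) E ↔
        x ∈ KX (fun _ : Fin n => V) E := by
    intro p x
    unfold KX
    rw [mem_ofPred_eq, mem_ofPred_eq]
    have : ∑ i, V (x (p i)) = ∑ i, V (x i) := Equiv.sum_comp p fun i => V (x i)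
    rw [← this]
  have hcv : Convex ℝ (KX (fun _ : Fin n => V) E ∩ coneE R) := h4.inter (coneE_convex R)
  refine ⟨hKc.inter_right (coneE_closed R), hcv,
    int_of_pos hcv (cone_pos R hLc hKc.measurableSet hKp hsym), ?_⟩
  exact H4 n (KX (fun _ : Fin n => V) E) R hn hKc h4 hKp hLc hsym
    (H3 n V z E hn hV hz hb hi R hanti htr)

end Pool.Agent.U959.OO
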