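import Pool.Agent.U959.OO.Lim
import Pool.Agent.Y532.PV.Che

/-!
# Sets of measure one half against halfspaces
-/

set_option autoImplicit false

namespace Pool.Agent.U959.OO

open MeasureTheory Set Filter Topology
open scoped ENNReal InnerProductSpace
open Pool.Agent.W695.KH (Eu EU EV VV Sm Pot ga Nn)
open Pool.Agent.U959.OC
open Pool.Agent.R372.OP.SYM (Lc)
open Pool.Agent.R476.OR (NV CV SV KV LVL S_STI S_COV S_FLD bb bV sg XV KX)
open Pool.Agent.Y506.FF (LCon)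
open Pool.Agent.Y506.RG (EW VW EW_aff)
open Pool.Agent.Y506.PV (ind VV_VW EV_EW)
open Pool.Agent.Y532.PV (ennreal_sup_aux)

variable {n : ℕ}

theorem mean_eq (R : Fin n → Fin n → Prop) {K : Set (Eu (Fin n))}
    (hKm : MeasurableSet K) (hLc : 0 < Lc R)
    (hs : ∀ (p : Equiv.Perm (Fin n)) (x : Eu (Fin n)),
      (WithLp.toLp 2 fun i => x (p i) : Eu (Fin n)) ∈ K ↔ x ∈ K)
    (g : Eu (Fin n) → ℝ≥0∞) (hg : Measurable g)
    (hgs : ∀ (p : Equiv.Perm (Fin n)) (x : Eu (Fin n)), g (WithLp.toLp 2 fun i => x (p i)) = g x) :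
    (volume (K ∩ coneE R))⁻¹ * ∫⁻ x in K ∩ coneE R, g x = (volume K)⁻¹ * ∫⁻ x in K, g x := by
  have hc := coneE_meas (n := n) R
  have key : ∀ h : Eu (Fin n) → ℝ≥0∞, Measurable h →
      (∀ (p : Equiv.Perm (Fin n)) (x : Eu (Fin n)), h (WithLp.toLp 2 fun i => x (p i)) = h x) →
      (Fintype.card (Equiv.Perm (Fin n)) : ℝ≥0∞) * ∫⁻ x in K ∩ coneE R, h x =
        (Lc R : ℝ≥0∞) * ∫⁻ x in K, h x := by
    intro h hh hhs
    have e := symL R (K.indicator h) (hh.indicator hKm) fun p x => by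
      by_cases hx : x ∈ K
      · rw [indicator_of_mem hx, indicator_of_mem ((hs p x).2 hx), hhs]
      · rw [indicator_of_notMem hx, indicator_of_notMem fun h' => hx ((hs p x).1 h')]
    rw [lintegral_indicator hKm, lintegral_indicator hKm, Measure.restrict_restrict hKm] at e
    exact e
  have k1 := key g hg hgs
  have k2 := key (fun _ => 1) measurable_const fun _ _ => rfl
  rw [setLIntegral_one, setLIntegral_one] at k2
  have hcancel : ∀ (c v A : ℝ≥0∞), c ≠ 0 → c ≠ ⊤ → (c * v)⁻¹ * (c * A) = v⁻¹ * A := by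
    intro c v A h0 h1
    rw [ENNReal.mul_inv (Or.inl h0) (Or.inl h1)]
    calc c⁻¹ * v⁻¹ * (c * A) = (c⁻¹ * c) * (v⁻¹ * A) := by ring
      _ = v⁻¹ * A := by rw [ENNReal.inv_mul_cancel h0 h1, one_mul]
  have hc0 : (Fintype.card (Equiv.Perm (Fin n)) : ℝ≥0∞) ≠ 0 := by
    exact_mod_cast Fintype.card_ne_zero
  have hN0 : ((Lc R : ℕ) : ℝ≥0∞) ≠ 0 := by exact_mod_cast hLc.ne'
  rw [← hcancel _ (volume (K ∩ coneE R)) (∫⁻ x in K ∩ coneE R, g x) hc0 (ENNReal.natCast_ne_top _),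
    k1, k2, hcancel _ _ _ hN0 (ENNReal.natCast_ne_top _)]

theorem coneE_convex (R : Fin n → Fin n → Prop) : Convex ℝ (coneE R) := by
  intro x hx y hy a b ha hb _ i j hij
  have h1 := mul_le_mul_of_nonneg_left (hx i j hij) ha
  have h2 := mul_le_mul_of_nonneg_left (hy i j hij) hb
  simp only [PiLp.add_apply, PiLp.smul_apply, smul_eq_mul]
  linarith

theorem int_of_pos {D : Set (Eu (Fin n))} (hc : Convex ℝ D) (hp : 0 < volume D) :
    (interior D).Nonempty := by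
  by_contra hne
  rw [not_nonempty_iff_eq_empty] at hne
  have h1 := hc.addHaar_frontier (volume : Measure (Eu (Fin n)))
  have h2 : D ⊆ frontier D := by
    intro x hx
    refine ⟨subset_closure hx, ?_⟩
    rw [hne]
    exact fun h => h
  exact hp.ne' (measure_mono_null h2 h1)

theorem half_cone (κ : ℝ) (hκ : 0 < κ) : ∃ c : ℝ, 0 < c ∧ ∀ (n : ℕ) (K : Set (Eu (Fin n)))
    (R : Fin n → Fin n → Prop), 1 ≤ n → IsCompact K → Convex ℝ K → 0 < volume K → 0 < Lc R →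
    (∀ (p : Equiv.Perm (Fin n)) (x : Eu (Fin n)),
      (WithLp.toLp 2 fun i => x (p i) : Eu (Fin n)) ∈ K ↔ x ∈ K) → PP κ K R →
    ∀ μ : Measure (Eu (Fin n)), μ = (volume (K ∩ coneE R))⁻¹ • volume.restrict (K ∩ coneE R) →
    ∀ t : ℝ≥0∞, (∀ (u : Eu (Fin n)) (b : ℝ), u ≠ 0 →
      t * min (μ {x | ⟪u, x⟫_ℝ ≤ b}) (1 - μ {x | ⟪u, x⟫_ℝ ≤ b}) ≤
        liminf (fun ε : ℝ => (μ (Metric.thickening ε {x | ⟪u, x⟫_ℝ ≤ b}) - μ {x | ⟪u, x⟫_ℝ ≤ b}) /
          ENNReal.ofReal ε) (𝓝[>] 0)) →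
    ∀ S : Set (Eu (Fin n)), μ S = 1 / 2 → ENNReal.ofReal c * t ≤
      liminf (fun ε : ℝ => (μ (Metric.thickening ε S) - μ S) / ENNReal.ofReal ε) (𝓝[>] 0) := by
  obtain ⟨C, hC, HH⟩ := Pool.Agent.Y211.FF.half
  have hsC : 0 < Real.sqrt C := Real.sqrt_pos.2 hC
  refine ⟨κ / (8 * Real.sqrt C), by positivity, ?_⟩
  intro n K R hn hKc hKcv hKp hLc hsym hPP μ hμ t ht S hS
  have hKm : MeasurableSet K := hKc.measurableSet
  have hKf : volume K ≠ ⊤ := hKc.measure_lt_top.ne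
  obtain ⟨D, hD⟩ : ∃ D, D = K ∩ coneE R := ⟨_, rfl⟩
  have hDc : IsCompact D := by rw [hD]; exact hKc.inter_right (coneE_closed R)
  have hDcv : Convex ℝ D := by rw [hD]; exact hKcv.inter (coneE_convex R)
  have hDp : 0 < volume D := by rw [hD]; exact cone_pos R hLc hKm hKp hsym
  have hDf : volume D ≠ ⊤ := hDc.measure_lt_top.ne
  have hDi : (interior D).Nonempty := int_of_pos hDcv hDp
  rw [← hD] at hμ
  have hprob : IsProbabilityMeasure μ := ⟨by
    rw [hμ, Measure.smul_apply, Measure.restrict_apply_univ, smul_eq_mul,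
      ENNReal.inv_mul_cancel hDp.ne' hDf]⟩
  have hn0 : (0 : ℝ) < n := by exact_mod_cast hn
  have hsn : 0 < Real.sqrt n := Real.sqrt_pos.2 hn0
  refine ennreal_sup_aux _ _ _ fun r hr hrt => ?_
  -- the variance of the sum of the coordinates
  have hvar : VW (ind K) (fun x => ∑ i, x i) ≤ (C / r ^ 2) * n := by
    obtain ⟨θ, hθ⟩ : ∃ θ : Eu (Fin n), θ = (Real.sqrt n)⁻¹ • on n := ⟨_, rfl⟩
    have hθ1 : ‖θ‖ = 1 := by
      have h1 : ‖θ‖ ^ 2 = 1 := by
        rw [hθ, norm_smul, mul_pow, on_norm, Real.norm_eq_abs, sq_abs, inv_pow,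
          Real.sq_sqrt hn0.le, inv_mul_cancel₀ hn0.ne']
      have h2 := norm_nonneg θ
      nlinarith
    obtain ⟨m, hm⟩ := HH (Fin n) D hDc hDcv hDi μ hμ θ t hθ1 fun b => ht θ b (by
      intro h0
      rw [h0, norm_zero] at hθ1
      exact zero_ne_one hθ1)
    have hin : ∀ x : Eu (Fin n), ⟪θ, x⟫_ℝ = (Real.sqrt n)⁻¹ * ∑ i, x i := by
      intro x
      rw [hθ, real_inner_smul_left, real_inner_comm, on_inner]
    obtain ⟨g, hg⟩ : ∃ g : Eu (Fin n) → ℝ, g = fun x => (⟪θ, x⟫_ℝ - m) ^ 2 := ⟨_, rfl⟩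
    have hgc : Continuous g := by
      rw [hg]
      fun_prop
    have hg0 : ∀ x, 0 ≤ g x := fun x => by rw [hg]; exact sq_nonneg _
    have e1 : ∫⁻ x, ENNReal.ofReal ((⟪θ, x⟫_ℝ - m) ^ 2) ∂μ =
        (volume K)⁻¹ * ∫⁻ x in K, ENNReal.ofReal (g x) := by
      rw [hμ, lintegral_smul_measure, smul_eq_mul, hD, hg]
      refine mean_eq R hKm hLc hsym _ (by fun_prop) fun p x => ?_
      rw [hin, hin]
      congr 4
      exact Equiv.sum_comp p fun i => x i
    have iK : IntegrableOn g K := hgc.continuousOn.integrableOn_compact hKc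
    obtain ⟨vK, hvK⟩ : ∃ vK, vK = (volume K).toReal := ⟨_, rfl⟩
    have hvK0 : 0 < vK := by rw [hvK]; exact ENNReal.toReal_pos hKp.ne' hKf
    have hvK' : volume K = ENNReal.ofReal vK := by rw [hvK, ENNReal.ofReal_toReal hKf]
    rw [e1, ← ofReal_integral_eq_lintegral_ofReal iK (Eventually.of_forall hg0), hvK',
      ← ENNReal.ofReal_inv_of_pos hvK0, ← ENNReal.ofReal_mul (by positivity)] at hm
    have h1 : ENNReal.ofReal (r ^ 2 * (vK⁻¹ * ∫ x in K, g x)) ≤ ENNReal.ofReal C := by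
      rw [ENNReal.ofReal_mul (by positivity), ENNReal.ofReal_pow hr.le]
      exact (mul_le_mul_left (pow_le_pow_left' hrt 2) _).trans hm
    have h2 : r ^ 2 * (vK⁻¹ * ∫ x in K, g x) ≤ C := (ENNReal.ofReal_le_ofReal_iff hC.le).1 h1
    have h3 : VV K (fun x : Eu (Fin n) => ⟪θ, x⟫_ℝ) ≤ vK⁻¹ * ∫ x in K, g x := by
      refine (VV_le hKc hKp _ (by fun_prop) m).trans (le_of_eq ?_)
      rw [← hvK, div_eq_inv_mul, hg]
    have h4 : VV K (fun x : Eu (Fin n) => ∑ i, x i) = n * VV K (fun x : Eu (Fin n) => ⟪θ, x⟫_ℝ) := by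
      have e2 : (fun x : Eu (Fin n) => ∑ i, x i) = fun x => Real.sqrt n * ⟪θ, x⟫_ℝ + 0 := by
        funext x
        rw [hin, ← mul_assoc, mul_inv_cancel₀ hsn.ne', one_mul, add_zero]
      rw [e2, VV_lin hKc hKp _ (by fun_prop), Real.sq_sqrt hn0.le]
    rw [← VV_VW K hKm, h4]
    have h5 : VV K (fun x : Eu (Fin n) => ⟪θ, x⟫_ℝ) ≤ C / r ^ 2 := by
      refine h3.trans ?_
      rw [le_div_iff₀ (by positivity)]
      linarith
    nlinarith
  obtain ⟨s, hs⟩ : ∃ s, s = C / r ^ 2 := ⟨_, rfl⟩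
  have hs0 : 0 < s := by rw [hs]; positivity
  rw [← hs] at hvar
  have hss : 0 < Real.sqrt s := Real.sqrt_pos.2 hs0
  have hDm : MeasurableSet D := hDc.measurableSet
  have hLC : LCon D (κ / Real.sqrt s) (1 / 25) := by
    intro v hv hv1 hvl
    rw [VV_VW D hDm, hD]
    exact hPP s hs0 hvar v hv hv1 hvl
  have hl : 0 < κ / Real.sqrt s := by positivity
  have hB : 0 < 2 / (κ / Real.sqrt s) := by positivity
  have key := Pool.Agent.Y429.RG.minkm (Fin n) μ (2 / (κ / Real.sqrt s)) hB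
    (fun f L M hf hfb hf5 => by
      have e : ∀ w : Eu (Fin n) → ℝ, ∫ x, w x ∂μ = EV D w := fun w =>
        (Pool.Agent.W800.KH.EV_eq D μ hμ w).symm
      rw [e, e] at hf5 ⊢
      rw [e]
      exact Pool.Agent.Y665.FF.milb Pool.Agent.Y445.FF.mila' (Fin n) D hDc hDcv hDp (1 / 25)
        (κ / Real.sqrt s) (by norm_num) hl hLC f L M hf hfb (by
          unfold VV
          linarith)) S hS
  obtain ⟨I, hI⟩ : ∃ I : ℝ≥0∞, I = liminf (fun ε : ℝ => (μ (Metric.thickening ε S) - μ S) /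
    ENNReal.ofReal ε) (𝓝[>] 0) := ⟨_, rfl⟩
  rw [← hI] at key ⊢
  rw [hS] at key
  have h1 : (1 / 2 : ℝ≥0∞) * (1 - 1 / 2) = ENNReal.ofReal (1 / 4) := by
    have h2 : (1 / 2 : ℝ≥0∞) = ENNReal.ofReal (1 / 2) := by
      rw [ENNReal.ofReal_div_of_pos (by norm_num)]
      norm_num
    rw [h2, ← ENNReal.ofReal_one, ← ENNReal.ofReal_sub _ (by norm_num),
      ← ENNReal.ofReal_mul (by norm_num)]
    norm_num
  rw [h1] at key
  have h3 : ENNReal.ofReal (κ / (8 * Real.sqrt C)) * ENNReal.ofReal r =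
      ENNReal.ofReal ((2 / (κ / Real.sqrt s))⁻¹) * ENNReal.ofReal (1 / 4) := by
    rw [← ENNReal.ofReal_mul (by positivity), ← ENNReal.ofReal_mul (by positivity)]
    congr 1
    have e : Real.sqrt s = Real.sqrt C / r := by
      rw [hs, Real.sqrt_div hC.le, Real.sqrt_sq hr.le]
    rw [e]
    field_simp
    ring
  rw [h3]
  calc ENNReal.ofReal ((2 / (κ / Real.sqrt s))⁻¹) * ENNReal.ofReal (1 / 4) ≤
        ENNReal.ofReal ((2 / (κ / Real.sqrt s))⁻¹) * (ENNReal.ofReal (2 / (κ / Real.sqrt s)) * I) :=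
        mul_le_mul_right key _
    _ = I := by
        rw [← mul_assoc, ← ENNReal.ofReal_mul (by positivity), inv_mul_cancel₀ hB.ne',
          ENNReal.ofReal_one, one_mul]

end Pool.Agent.U959.OO
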