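import Pool.Agent.U959.OO.Cls
import Pool.Agent.R476.OR.G
import Pool.Agent.R476.OR.Z1

/-!
# Limits
-/

set_option autoImplicit false

namespace Pool.Agent.U959.OO

open MeasureTheory Set Filter Topology
open scoped ENNReal InnerProductSpace
open Pool.Agent.W695.KH (Eu EU EV VV Sm Pot ga Nn)
open Pool.Agent.U959.OC
open Pool.Agent.R372.OP.SYM (Lc)
open Pool.Agent.R476.OR (NV CV SV KV LVL S_STI S_COV S_FLD bb bV sg XV KX zL zL_le zL_le_self zL_fin
  zL_mono zL_conv zL_tendsto zV zV_convex zV_SV zV_nonneg h_SV_cont h_SV_segment)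
open Pool.Agent.Y506.RG (EW VW EW_aff)
open Pool.Agent.Y506.PV (ind VV_VW EV_EW)

variable {n : ℕ}

theorem ew_lim {K : Set (Eu (Fin n))} {Kj : ℕ → Set (Eu (Fin n))} (B : ℝ)
    (hB : ∀ j, Kj j ⊆ Metric.closedBall 0 B) (hm : ∀ j, MeasurableSet (Kj j))
    (hKm : MeasurableSet K) (hKB : K ⊆ Metric.closedBall 0 B)
    (hae : ∀ᵐ x, Tendsto (fun j => ind (Kj j) x) atTop (𝓝 (ind K x))) (hp : 0 < volume K)
    (f : Eu (Fin n) → ℝ) (hf : Continuous f) :
    Tendsto (fun j => EW (ind (Kj j)) f) atTop (𝓝 (EW (ind K) f)) := by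
  have h1 : ∀ g : Eu (Fin n) → ℝ, Continuous g →
      Tendsto (fun j => ∫ x, g x * ind (Kj j) x) atTop (𝓝 (∫ x, g x * ind K x)) := by
    intro g hg
    refine tendsto_integral_of_dominated_convergence
      (fun x => (Metric.closedBall (0 : Eu (Fin n)) B).indicator (fun x => |g x|) x) (fun j => ?_) ?_
      (fun j => Eventually.of_forall fun x => ?_) ?_
    · have m1 : Measurable (ind (Kj j)) := measurable_const.indicator (hm j)
      exact (hg.measurable.mul m1).aestronglyMeasurable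
    · rw [integrable_indicator_iff measurableSet_closedBall]
      exact hg.abs.continuousOn.integrableOn_compact (isCompact_closedBall _ _)
    · rw [Real.norm_eq_abs, abs_mul]
      unfold ind
      by_cases hx : x ∈ Kj j
      · rw [indicator_of_mem hx, indicator_of_mem (hB j hx), abs_one, mul_one]
      · rw [indicator_of_notMem hx, abs_zero, mul_zero]
        exact indicator_nonneg (fun _ _ => abs_nonneg _) _
    · filter_upwards [hae] with x hx
      exact hx.const_mul _
  have h2 := h1 (fun _ => 1) continuous_const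
  simp only [one_mul] at h2
  have hne : ∫ x, ind K x ≠ 0 := by
    rw [Pool.Agent.Y506.PV.int_ind1 K hKm]
    exact (ENNReal.toReal_pos hp.ne' (lt_of_le_of_lt (measure_mono hKB)
      measure_closedBall_lt_top).ne).ne'
  exact (h1 f hf).div h2 hne

theorem vw_lim {K : Set (Eu (Fin n))} {Kj : ℕ → Set (Eu (Fin n))} (B : ℝ)
    (hB : ∀ j, Kj j ⊆ Metric.closedBall 0 B) (hm : ∀ j, MeasurableSet (Kj j))
    (hKm : MeasurableSet K) (hKB : K ⊆ Metric.closedBall 0 B)
    (hae : ∀ᵐ x, Tendsto (fun j => ind (Kj j) x) atTop (𝓝 (ind K x))) (hp : 0 < volume K)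
    (f : Eu (Fin n) → ℝ) (hf : Continuous f) :
    Tendsto (fun j => VW (ind (Kj j)) f) atTop (𝓝 (VW (ind K) f)) :=
  (ew_lim B hB hm hKm hKB hae hp _ (hf.pow 2)).sub ((ew_lim B hB hm hKm hKB hae hp f hf).pow 2)

theorem pp_lim (hn : 1 ≤ n) (κ : ℝ) (R : Fin n → Fin n → Prop) {K : Set (Eu (Fin n))}
    {Kj : ℕ → Set (Eu (Fin n))} (B : ℝ)
    (hB : ∀ j, Kj j ⊆ Metric.closedBall 0 B) (hm : ∀ j, MeasurableSet (Kj j))
    (hKm : MeasurableSet K) (hKB : K ⊆ Metric.closedBall 0 B)
    (hae : ∀ᵐ x, Tendsto (fun j => ind (Kj j) x) atTop (𝓝 (ind K x))) (hp : 0 < volume K)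
    (hp2 : 0 < volume (K ∩ coneE R)) (H : ∀ j, PP κ (Kj j) R) : PP (κ / 2) K R := by
  intro s hs hvar v hv hv1 hvl
  have hn0 : (0 : ℝ) < n := by exact_mod_cast hn
  have hC := coneE_meas (n := n) R
  have hS : Continuous fun x : Eu (Fin n) => ∑ i, x i := by fun_prop
  have h1 := vw_lim B hB hm hKm hKB hae hp _ hS
  have h2 : VW (ind K) (fun x => ∑ i, x i) < (4 * s) * n := by
    refine hvar.trans_lt ?_
    have : 0 < s * n := by positivity
    linarith
  have hae2 : ∀ᵐ x, Tendsto (fun j => ind (Kj j ∩ coneE R) x) atTop (𝓝 (ind (K ∩ coneE R) x)) := by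
    filter_upwards [hae] with x hx
    have e : ∀ S : Set (Eu (Fin n)), ind (S ∩ coneE R) x = ind S x * ind (coneE R) x := by
      intro S
      unfold ind
      by_cases h : x ∈ S <;> by_cases h' : x ∈ coneE R <;> simp [h, h']
    simp only [e]
    exact hx.mul_const _
  have h3 := vw_lim B (fun j => inter_subset_left.trans (hB j)) (fun j => (hm j).inter hC)
    (hKm.inter hC) (inter_subset_left.trans hKB) hae2 hp2 v hv.continuous
  refine le_of_tendsto h3 ?_
  filter_upwards [h1.eventually_lt_const h2] with j hj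
  refine H j (4 * s) (by positivity) hj.le v hv hv1 fun x => ?_
  refine (hvl x).trans (le_of_eq ?_)
  have e4 : Real.sqrt (4 * s) = 2 * Real.sqrt s := by
    rw [Real.sqrt_mul (by norm_num), show (4 : ℝ) = 2 ^ 2 by norm_num,
      Real.sqrt_sq (by norm_num)]
  rw [e4]
  field_simp

/-- the forward averages of a symmetric function are symmetric -/
theorem sm_sym {V : ℝ → ℝ} (z ε : ℝ) (hz : ∀ t, V (2 * z - t) = V t) (t : ℝ) :
    Pool.Agent.R476.OR.G.sm V ε (2 * (z - ε / 2) - t) = Pool.Agent.R476.OR.G.sm V ε t := by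
  unfold Pool.Agent.R476.OR.G.sm
  have h1 : ∀ u : ℝ, V (2 * (z - ε / 2) - t + ε * u) = (fun u => V (t + ε * u)) (1 - u) := by
    intro u
    have e : 2 * (z - ε / 2) - t + ε * u = 2 * z - (t + ε * (1 - u)) := by ring
    rw [e, hz]
  simp only [h1]
  rw [intervalIntegral.integral_comp_sub_left (fun u => V (t + ε * u)) 1]
  simp

/-- limit 1 -/
theorem cls2 (κ : ℝ) (H : ∀ (n : ℕ) (V V' : ℝ → ℝ) (z E : ℝ), 1 ≤ n → CV V V' →
    (∀ t, V (2 * z - t) = V t) →
    Bornology.IsBounded (KV (fun _ : Fin n => V) E) → (∃ x, SV (fun _ : Fin n => V) x < E) →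
    ∀ R : Fin n → Fin n → Prop, (∀ a b, R a b → R b a → a = b) →
    (∀ a b c, R a b → R b c → R a c) → PP κ (KV (fun _ : Fin n => V) E) R) :
    ∀ (n : ℕ) (V : ℝ → ℝ) (z E : ℝ), 1 ≤ n → ConvexOn ℝ univ V → (∀ t, V (2 * z - t) = V t) →
    Bornology.IsBounded (KV (fun _ : Fin n => V) E) → (∃ x, SV (fun _ : Fin n => V) x < E) →
    ∀ R : Fin n → Fin n → Prop, (∀ a b, R a b → R b a → a = b) →
    (∀ a b c, R a b → R b c → R a c) → PP (κ / 2) (KV (fun _ : Fin n => V) E) R := by
  intro n V z E hn hV hz hb hx R hanti htr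
  obtain ⟨x0, hx0⟩ := hx
  have hVc : Continuous V := Pool.Agent.R476.OR.G.cont_of_convex hV
  have hVcf : ∀ _i : Fin n, Continuous ((fun _ : Fin n => V) _i) := fun _ => hVc
  obtain ⟨B, hR⟩ := hb.subset_closedBall 0
  obtain ⟨B', hB'⟩ : ∃ B', B' = B + ‖Pool.Agent.R476.OR.G.one n‖ := ⟨_, rfl⟩
  have hRR : KV (fun _ : Fin n => V) E ⊆ Metric.closedBall 0 B' :=
    hR.trans (Metric.closedBall_subset_closedBall (by
      have := norm_nonneg (Pool.Agent.R476.OR.G.one n)
      linarith))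
  obtain ⟨ε, hε⟩ : ∃ ε : ℕ → ℝ, ε = fun j : ℕ => 1 / ((j : ℝ) + 1) := ⟨_, rfl⟩
  have hε0 : ∀ j, 0 < ε j := fun j => by rw [hε]; positivity
  have hε1 : ∀ j, ε j ≤ 1 := fun j => by
    rw [hε]
    dsimp only
    rw [div_le_one (by positivity)]
    have : (0 : ℝ) ≤ (j : ℝ) := Nat.cast_nonneg j
    linarith
  have hεt : Tendsto ε atTop (𝓝 0) := by rw [hε]; exact tendsto_one_div_add_atTop_nhds_zero_nat
  have hWcv : ∀ j, CV (Pool.Agent.R476.OR.G.sm V (ε j))
      (fun t => (ε j)⁻¹ * (V (t + ε j) - V t)) := fun j =>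
    Pool.Agent.R476.OR.G.sm_cv hV (hε0 j)
  have hWc : ∀ j, Continuous (Pool.Agent.R476.OR.G.sm V (ε j)) := fun j =>
    continuous_iff_continuousAt.2 fun t => ((hWcv j).der t).continuousAt
  have hWb : ∀ j, KV (fun _ : Fin n => Pool.Agent.R476.OR.G.sm V (ε j)) E ⊆
      Metric.closedBall 0 B' := fun j => by
    rw [hB']
    exact Pool.Agent.R476.OR.G.bdd_sm hVcf hR (hε0 j).le (hε1 j)
  have hlim : ∀ x, Tendsto (fun j => SV (fun _ : Fin n => Pool.Agent.R476.OR.G.sm V (ε j)) x) atTop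
      (𝓝 (SV (fun _ : Fin n => V) x)) := by
    intro x
    unfold SV
    apply tendsto_finsetSum
    intro i _
    have h1 := ((Pool.Agent.R476.OR.G.sm_cont hVc (x i)).tendsto 0).comp hεt
    rw [Pool.Agent.R476.OR.G.sm_zero] at h1
    exact h1
  -- strict inequality for large `j`
  obtain ⟨j0, hj0⟩ := eventually_atTop.1 ((hlim x0).eventually_lt_const hx0)
  have hKm : MeasurableSet (KV (fun _ : Fin n => V) E) :=
    (isClosed_le (SV_cont' hVc) continuous_const).measurableSet
  have hpos : 0 < volume (KV (fun _ : Fin n => V) E) := by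
    have hopen : IsOpen {x : Eu (Fin n) | SV (fun _ : Fin n => V) x < E} :=
      isOpen_lt (SV_cont' hVc) continuous_const
    exact lt_of_lt_of_le (hopen.measure_pos volume ⟨x0, hx0⟩)
      (measure_mono fun x (hx : SV (fun _ : Fin n => V) x < E) => hx.le)
  have hnull := Pool.Agent.R476.OR.G.level_null (fun _ : Fin n => hV) hx0
  refine pp_lim hn κ R (Kj := fun j => KV (fun _ : Fin n => Pool.Agent.R476.OR.G.sm V (ε (j0 + j))) E)
    B' (fun j => hWb _) (fun j => (isClosed_le (SV_cont' (hWc _)) continuous_const).measurableSet)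
    hKm hRR ?_ hpos (cone_pos R (Lc_pos R hanti htr) hKm hpos (KV_sym V E)) fun j => ?_
  · have hae : ∀ᵐ x : Eu (Fin n), SV (fun _ : Fin n => V) x ≠ E := by
      rw [ae_iff]
      simpa using hnull
    filter_upwards [hae] with x hxE
    have hlim' : Tendsto (fun j => SV (fun _ : Fin n => Pool.Agent.R476.OR.G.sm V (ε (j0 + j))) x)
        atTop (𝓝 (SV (fun _ : Fin n => V) x)) := by
      have h1 : Tendsto (fun j : ℕ => j0 + j) atTop atTop :=
        tendsto_atTop_mono (fun j => Nat.le_add_left j j0) tendsto_id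
      exact (hlim x).comp h1
    refine tendsto_const_nhds.congr' ?_
    rcases lt_or_gt_of_ne hxE with hlt | hgt
    · filter_upwards [hlim'.eventually_lt_const hlt] with j hj
      show ind (KV (fun _ : Fin n => V) E) x =
        ind (KV (fun _ : Fin n => Pool.Agent.R476.OR.G.sm V (ε (j0 + j))) E) x
      unfold ind
      rw [indicator_of_mem (show x ∈ KV (fun _ : Fin n => V) E from hlt.le), indicator_of_mem
        (show x ∈ KV (fun _ : Fin n => Pool.Agent.R476.OR.G.sm V (ε (j0 + j))) E from hj.le)]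
    · filter_upwards [hlim'.eventually_const_lt hgt] with j hj
      show ind (KV (fun _ : Fin n => V) E) x =
        ind (KV (fun _ : Fin n => Pool.Agent.R476.OR.G.sm V (ε (j0 + j))) E) x
      unfold ind
      rw [indicator_of_notMem (show x ∉ KV (fun _ : Fin n => V) E from not_le.2 hgt),
        indicator_of_notMem (show x ∉ KV (fun _ : Fin n => Pool.Agent.R476.OR.G.sm V (ε (j0 + j))) E
          from not_le.2 hj)]
  · exact H n _ _ (z - ε (j0 + j) / 2) E hn (hWcv _) (fun t => sm_sym z _ hz t)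
      (Metric.isBounded_closedBall.subset (hWb _)) ⟨x0, hj0 _ (Nat.le_add_right _ _)⟩ R hanti htr

/-- the regularisations of a symmetric function are symmetric -/
theorem zL_sym {V : ℝ → ℝ≥0∞} (z : ℝ) (hz : ∀ t, V (2 * z - t) = V t) (j : ℕ) (t : ℝ) :
    zL V j (2 * z - t) = zL V j t := by
  unfold zL
  rw [← (Equiv.subLeft (2 * z)).iInf_comp]
  refine iInf_congr fun s => ?_
  have e1 : (Equiv.subLeft (2 * z)) s = 2 * z - s := rfl
  have e2 : 2 * z - t - (2 * z - s) = -(t - s) := by ring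
  rw [e1, hz, e2, abs_neg]

/-- limit 2 -/
theorem cls3 (κ : ℝ) (H : ∀ (n : ℕ) (V : ℝ → ℝ) (z E : ℝ), 1 ≤ n → ConvexOn ℝ univ V →
    (∀ t, V (2 * z - t) = V t) →
    Bornology.IsBounded (KV (fun _ : Fin n => V) E) → (∃ x, SV (fun _ : Fin n => V) x < E) →
    ∀ R : Fin n → Fin n → Prop, (∀ a b, R a b → R b a → a = b) →
    (∀ a b c, R a b → R b c → R a c) → PP κ (KV (fun _ : Fin n => V) E) R) :
    ∀ (n : ℕ) (V : ℝ → ℝ≥0∞) (z : ℝ) (E : ℝ≥0∞), 1 ≤ n → XV V → (∀ t, V (2 * z - t) = V t) →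
    Bornology.IsBounded (KX (fun _ : Fin n => V) E) →
    (interior (KX (fun _ : Fin n => V) E)).Nonempty →
    ∀ R : Fin n → Fin n → Prop, (∀ a b, R a b → R b a → a = b) →
    (∀ a b c, R a b → R b c → R a c) → PP (κ / 2) (KX (fun _ : Fin n => V) E) R := by
  intro n V z E hn hV hz hb hi R hanti htr
  obtain ⟨x0, hx0i⟩ := hi
  obtain ⟨K, hK⟩ : ∃ K, K = KX (fun _ : Fin n => V) E := ⟨_, rfl⟩
  have hE : E ≠ ⊤ := by
    rintro rfl
    have h3 : (KX (fun _ : Fin n => V) ⊤ : Set (Eu (Fin n))) = univ := by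
      ext x
      simp [KX]
    rw [h3] at hb
    have hnt : Nontrivial (Eu (Fin n)) := by
      have : Nonempty (Fin n) := ⟨⟨0, hn⟩⟩
      infer_instance
    exact NormedSpace.unbounded_univ ℝ (Eu (Fin n)) hb
  have hx0 : ∑ i, V (x0 i) ≤ E := by
    have h : x0 ∈ KX (fun _ : Fin n => V) E := interior_subset hx0i
    exact h
  have h0 : ∀ _i : Fin n, (fun _ : Fin n => V) _i (x0 _i) ≠ ⊤ := fun i =>
    ne_top_of_le_ne_top (ne_top_of_le_ne_top hE hx0)
      (Finset.single_le_sum (f := fun i => V (x0 i)) (fun _ _ => zero_le) (Finset.mem_univ i))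
  have hVf : ∀ _i : Fin n, XV ((fun _ : Fin n => V) _i) := fun _ => hV
  obtain ⟨W, hW⟩ : ∃ W : ℕ → ℝ → ℝ, W = fun j t => (zL V j t).toReal := ⟨_, rfl⟩
  have hzW : ∀ j, zV (fun _ : Fin n => V) j = fun _ : Fin n => W j := by
    intro j
    rw [hW]
    rfl
  have hcv : ∀ j, ConvexOn ℝ univ (W j) := by
    intro j
    have := zV_convex hVf h0 j ⟨0, hn⟩
    rw [hzW] at this
    exact this
  have hcont : ∀ j, Continuous (SV (fun _ : Fin n => W j)) := fun j =>
    h_SV_cont fun _ => hcv j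
  have hSV : ∀ j (x : Eu (Fin n)), ENNReal.ofReal (SV (fun _ : Fin n => W j) x) =
      ∑ i, zL V j (x i) := by
    intro j x
    have := zV_SV h0 j x
    rw [hzW] at this
    exact this
  have hSV0 : ∀ j (x : Eu (Fin n)), 0 ≤ SV (fun _ : Fin n => W j) x := by
    intro j x
    have := zV_nonneg (fun _ : Fin n => V) j x
    rw [hzW] at this
    exact this
  have hmono : ∀ j k (x : Eu (Fin n)), j ≤ k → SV (fun _ : Fin n => W j) x ≤
      SV (fun _ : Fin n => W k) x := by
    intro j k x hjk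
    rw [← ENNReal.ofReal_le_ofReal_iff (hSV0 k x), hSV, hSV]
    exact Finset.sum_le_sum fun i _ => zL_mono V hjk (x i)
  -- the levels
  obtain ⟨e, he⟩ : ∃ e : ℕ → ℝ, e = fun j : ℕ => E.toReal + 1 / ((j : ℝ) + 1) := ⟨_, rfl⟩
  have heE : ∀ j, E.toReal < e j := fun j => by
    rw [he]
    have : (0 : ℝ) < 1 / ((j : ℝ) + 1) := by positivity
    dsimp only
    linarith
  have hea : ∀ j k, j ≤ k → e k ≤ e j := by
    intro j k hjk
    rw [he]
    dsimp only
    have h1 : (j : ℝ) ≤ k := by exact_mod_cast hjk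
    have h2 : 1 / ((k : ℝ) + 1) ≤ 1 / ((j : ℝ) + 1) :=
      one_div_le_one_div_of_le (by positivity) (by linarith)
    linarith
  have het : Tendsto e atTop (𝓝 E.toReal) := by
    rw [he]
    have := (tendsto_const_nhds (x := E.toReal)).add tendsto_one_div_add_atTop_nhds_zero_nat
    simpa using this
  have hin : ∀ j (x : Eu (Fin n)), x ∈ K → SV (fun _ : Fin n => W j) x < e j := by
    intro j x hx
    refine lt_of_le_of_lt ?_ (heE j)
    rw [← ENNReal.ofReal_le_iff_le_toReal hE, hSV]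
    rw [hK] at hx
    exact (Finset.sum_le_sum fun i _ => zL_le_self V j (x i)).trans hx
  have hout : ∀ x : Eu (Fin n), x ∉ K → ∀ᶠ j in atTop, e j < SV (fun _ : Fin n => W j) x := by
    intro x hx
    have h1 : E < ∑ i, V (x i) := by
      rw [hK] at hx
      exact not_le.1 hx
    obtain ⟨F, hF1, hF2⟩ := exists_between h1
    have hFt : F ≠ ⊤ := (lt_of_lt_of_le hF2 le_top).ne
    have h2 : Tendsto (fun j => ∑ i, zL V j (x i)) atTop (𝓝 (∑ i, V (x i))) :=
      tendsto_finsetSum _ fun i _ => zL_tendsto hV.lsc (x i)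
    have h3 : E.toReal < F.toReal := (ENNReal.toReal_lt_toReal hE hFt).2 hF1
    filter_upwards [h2.eventually_const_lt hF2, het.eventually_lt_const h3] with j hj hj2
    refine hj2.trans_le ?_
    rw [← hSV] at hj
    exact ((ENNReal.lt_ofReal_iff_toReal_lt hFt).1 hj).le
  -- boundedness
  have hbK : Bornology.IsBounded K := by rw [hK]; exact hb
  have hx0K : x0 ∈ K := by rw [hK]; exact hx0
  obtain ⟨j0, hj0⟩ : ∃ j0 : ℕ, Bornology.IsBounded (KV (fun _ : Fin n => W j0) (e j0)) := by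
    obtain ⟨ρ, hρ, hsub⟩ := hbK.subset_ball_lt 0 x0
    have hcov : Metric.sphere x0 ρ ⊆ ⋃ j : ℕ, {x | e j < SV (fun _ : Fin n => W j) x} := by
      intro x hx
      rw [mem_iUnion]
      have hxK : x ∉ K := by
        intro hcon
        have := hsub hcon
        rw [Metric.mem_ball] at this
        rw [Metric.mem_sphere] at hx
        linarith
      exact (hout x hxK).exists
    have hdir : Directed (· ⊆ ·)
        (fun j : ℕ => {x : Eu (Fin n) | e j < SV (fun _ : Fin n => W j) x}) := by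
      apply Monotone.directed_le
      intro j k hjk x hx
      have hx' : e j < SV (fun _ : Fin n => W j) x := hx
      show e k < SV (fun _ : Fin n => W k) x
      have h1 := hea j k hjk
      have h2 := hmono j k x hjk
      linarith
    obtain ⟨j0, hj0⟩ := (isCompact_sphere x0 ρ).elim_directed_cover _
      (fun j => isOpen_lt continuous_const (hcont j)) hcov hdir
    refine ⟨j0, Metric.isBounded_ball.subset (?_ : _ ⊆ Metric.ball x0 ρ)⟩
    intro x hx
    rw [Metric.mem_ball]
    by_contra hcon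
    rw [not_lt] at hcon
    obtain ⟨r, hr⟩ : ∃ r, r = dist x x0 := ⟨_, rfl⟩
    rw [← hr] at hcon
    have hr0 : 0 < r := by linarith
    obtain ⟨t, ht⟩ : ∃ t, t = ρ / r := ⟨_, rfl⟩
    have ht0 : 0 < t := by rw [ht]; positivity
    have ht1 : t ≤ 1 := by
      rw [ht, div_le_one hr0]
      exact hcon
    have hy : (1 - t) • x0 + t • x ∈ Metric.sphere x0 ρ := by
      rw [Metric.mem_sphere, dist_eq_norm]
      have e : (1 - t) • x0 + t • x - x0 = t • (x - x0) := by
        rw [sub_smul, one_smul, smul_sub]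
        abel
      rw [e, norm_smul, Real.norm_eq_abs, abs_of_pos ht0, ← dist_eq_norm, ← hr, ht]
      field_simp
    have h1 : e j0 < SV (fun _ : Fin n => W j0) ((1 - t) • x0 + t • x) := hj0 hy
    have h2 := h_SV_segment (fun _ : Fin n => hcv j0) x0 x ht0.le ht1
    have h3 : SV (fun _ : Fin n => W j0) x ≤ e j0 := hx
    have h4 : SV (fun _ : Fin n => W j0) x0 ≤ e j0 := (hin j0 x0 hx0K).le
    have h5 : (1 - t) * SV (fun _ : Fin n => W j0) x0 ≤ (1 - t) * e j0 :=
      mul_le_mul_of_nonneg_left h4 (by linarith)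
    have h6 : t * SV (fun _ : Fin n => W j0) x ≤ t * e j0 := mul_le_mul_of_nonneg_left h3 ht0.le
    linarith
  obtain ⟨B, hB⟩ := hj0.subset_closedBall 0
  have hsub : ∀ j, KV (fun _ : Fin n => W (j0 + j)) (e (j0 + j)) ⊆
      KV (fun _ : Fin n => W j0) (e j0) := by
    intro j x hx
    have hx' : SV (fun _ : Fin n => W (j0 + j)) x ≤ e (j0 + j) := hx
    show SV (fun _ : Fin n => W j0) x ≤ e j0
    exact (hmono j0 (j0 + j) x (Nat.le_add_right _ _)).trans
      (hx'.trans (hea j0 (j0 + j) (Nat.le_add_right _ _)))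
  have hKsub : K ⊆ KV (fun _ : Fin n => W j0) (e j0) := fun x hx => (hin j0 x hx).le
  have hKjm : ∀ j, MeasurableSet (KV (fun _ : Fin n => W j) (e j)) := fun j =>
    (isClosed_le (hcont j) continuous_const).measurableSet
  have hKm : MeasurableSet K := by
    have : K = ⋂ j : ℕ, KV (fun _ : Fin n => W j) (e j) := by
      apply Subset.antisymm
      · exact subset_iInter fun j x hx => (hin j x hx).le
      · intro x hx
        by_contra hcon
        obtain ⟨j, hj⟩ := (hout x hcon).exists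
        have h2 : SV (fun _ : Fin n => W j) x ≤ e j := mem_iInter.1 hx j
        linarith
    rw [this]
    exact MeasurableSet.iInter hKjm
  have hpos : 0 < volume K := by
    rw [hK]
    exact lt_of_lt_of_le (isOpen_interior.measure_pos volume ⟨x0, hx0i⟩)
      (measure_mono interior_subset)
  have hsymK : ∀ (p : Equiv.Perm (Fin n)) (x : Eu (Fin n)),
      (WithLp.toLp 2 fun i => x (p i) : Eu (Fin n)) ∈ K ↔ x ∈ K := by
    intro p x
    rw [hK]
    unfold KX
    rw [mem_ofPred_eq, mem_ofPred_eq]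
    have : ∑ i, V (x (p i)) = ∑ i, V (x i) := Equiv.sum_comp p fun i => V (x i)
    rw [← this]
  rw [← hK]
  refine pp_lim hn κ R (Kj := fun j => KV (fun _ : Fin n => W (j0 + j)) (e (j0 + j)))
    B (fun j => (hsub j).trans hB) (fun j => hKjm _) hKm (hKsub.trans hB)
    (Eventually.of_forall fun x => ?_) hpos (cone_pos R (Lc_pos R hanti htr) hKm hpos hsymK)
    fun j => ?_
  · refine tendsto_const_nhds.congr' ?_
    by_cases hx : x ∈ K
    · refine Eventually.of_forall fun j => ?_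
      show ind K x = ind (KV (fun _ : Fin n => W (j0 + j)) (e (j0 + j))) x
      unfold ind
      rw [indicator_of_mem hx, indicator_of_mem
        (show x ∈ KV (fun _ : Fin n => W (j0 + j)) (e (j0 + j)) from (hin _ x hx).le)]
    · obtain ⟨k, hk⟩ := eventually_atTop.1 (hout x hx)
      filter_upwards [eventually_ge_atTop k] with j hj
      show ind K x = ind (KV (fun _ : Fin n => W (j0 + j)) (e (j0 + j))) x
      unfold ind
      rw [indicator_of_notMem hx, indicator_of_notMem
        (show x ∉ KV (fun _ : Fin n => W (j0 + j)) (e (j0 + j)) from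
          not_le.2 (hk (j0 + j) (hj.trans (Nat.le_add_left _ _))))]
  · refine H n (W (j0 + j)) z (e (j0 + j)) hn (hcv _) (fun t => ?_) (hj0.subset (hsub j))
      ⟨x0, hin _ x0 hx0K⟩ R hanti htr
    rw [hW]
    dsimp only
    rw [zL_sym z hz]

end Pool.Agent.U959.OO
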