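import Pool.Agent.U959.OC.Sym

/-!
# Monotone rearrangement and symmetrisation over the linear extensions of an order
-/

set_option autoImplicit false

namespace Pool.Agent.U959.OO

open MeasureTheory Set Filter Topology
open scoped ENNReal InnerProductSpace
open Pool.Agent.W695.KH (Eu EU Sm Pot)
open Pool.Agent.U959.OC
open Pool.Agent.R372.OP.SYM (Lc)

variable {n : ℕ}

/-- monotone rearrangement -/
noncomputable def srt (x : Eu (Fin n)) : Eu (Fin n) :=
  WithLp.toLp 2 fun i => x (Tuple.sort (fun i => x i) i)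

theorem srt_apply (x : Eu (Fin n)) (i : Fin n) : srt x i = x (Tuple.sort (fun i => x i) i) := rfl

theorem srt_mono (x : Eu (Fin n)) : Monotone fun i => srt x i :=
  Tuple.monotone_sort (fun i => x i)

theorem srt_strict (x : Eu (Fin n)) (hx : ∀ i j, i ≠ j → x i ≠ x j) :
    StrictMono fun i => srt x i := by
  refine (srt_mono x).strictMono_of_injective fun i j hij => ?_
  by_contra hne
  refine hx (Tuple.sort (fun i => x i) i) (Tuple.sort (fun i => x i) j) (fun h => ?_) hij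
  exact hne ((Tuple.sort (fun i => x i)).injective h)

theorem sum_srt (x : Eu (Fin n)) (g : ℝ → ℝ) : ∑ i, g (srt x i) = ∑ i, g (x i) :=
  Equiv.sum_comp (Tuple.sort fun i => x i) fun i => g (x i)

theorem inner_srt (x y : Eu (Fin n)) : ∑ i, x i * y i ≤ ∑ i, srt x i * srt y i := by
  obtain ⟨a, ha⟩ : ∃ a, a = Tuple.sort (fun i => x i) := ⟨_, rfl⟩
  obtain ⟨b, hb⟩ : ∃ b, b = Tuple.sort (fun i => y i) := ⟨_, rfl⟩
  have h1 : ∑ i, x i * y i = ∑ i, srt x i * srt y ((b⁻¹ * a) i) := by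
    rw [← Equiv.sum_comp a fun i => x i * y i]
    refine Finset.sum_congr rfl fun i _ => ?_
    have h2 : b ((b⁻¹ * a) i) = a i := by simp
    rw [srt_apply, srt_apply, ← ha, ← hb, h2]
  rw [h1]
  exact ((srt_mono x).monovary (srt_mono y)).sum_mul_comp_perm_le_sum_mul

theorem srt_lip (x y : Eu (Fin n)) : ‖srt x - srt y‖ ≤ ‖x - y‖ := by
  refine le_of_sq_le_sq ?_ (norm_nonneg _)
  have e : ∀ a b : Eu (Fin n), ‖a - b‖ ^ 2 = ∑ i, a i ^ 2 + ∑ i, b i ^ 2 - 2 * ∑ i, a i * b i := by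
    intro a b
    rw [EuclideanSpace.real_norm_sq_eq, Finset.mul_sum, ← Finset.sum_add_distrib,
      ← Finset.sum_sub_distrib]
    refine Finset.sum_congr rfl fun i _ => ?_
    simp only [PiLp.sub_apply]
    ring
  rw [e, e, sum_srt x fun t => t ^ 2, sum_srt y fun t => t ^ 2]
  have := inner_srt x y
  linarith

theorem perm_norm (q : Equiv.Perm (Fin n)) (x y : Eu (Fin n)) :
    ‖(WithLp.toLp 2 fun i => x (q i) : Eu (Fin n)) - WithLp.toLp 2 fun i => y (q i)‖ = ‖x - y‖ := by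
  rw [EuclideanSpace.norm_eq, EuclideanSpace.norm_eq]
  congr 1
  exact Equiv.sum_comp q fun i => ‖(x - y) i‖ ^ 2

open Classical in
/-- linear extensions -/
noncomputable def LE (R : Fin n → Fin n → Prop) : Finset (Equiv.Perm (Fin n)) :=
  Finset.univ.filter fun q : Equiv.Perm (Fin n) => ∀ a b, R a b → q a ≤ q b

theorem LE_card (R : Fin n → Fin n → Prop) : (LE R).card = Lc R := rfl

/-- the symmetrised function -/
noncomputable def sy (R : Fin n → Fin n → Prop) (u : Eu (Fin n) → ℝ) (x : Eu (Fin n)) : ℝ :=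
  (∑ q ∈ LE R, u (WithLp.toLp 2 fun i => srt x (q i))) / Lc R

theorem sy_lip (R : Fin n → Fin n → Prop) (hR : 0 < Lc R) (u : Eu (Fin n) → ℝ) (l : ℝ)
    (hu : ∀ x y, |u x - u y| ≤ l * ‖x - y‖) (x y : Eu (Fin n)) :
    |sy R u x - sy R u y| ≤ l * ‖x - y‖ := by
  have hN : (0 : ℝ) < Lc R := by exact_mod_cast hR
  have hl : 0 ≤ l * ‖x - y‖ := (abs_nonneg _).trans (hu x y)
  unfold sy
  rw [← sub_div, abs_div, abs_of_pos hN, div_le_iff₀ hN, ← Finset.sum_sub_distrib]
  refine (Finset.abs_sum_le_sum_abs _ _).trans ?_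
  have h1 : ∀ q ∈ LE R, |u (WithLp.toLp 2 fun i => srt x (q i)) -
      u (WithLp.toLp 2 fun i => srt y (q i))| ≤ l * ‖x - y‖ := by
    intro q _
    refine (hu _ _).trans ?_
    rw [perm_norm]
    rcases le_or_gt 0 l with h0 | h0
    · exact mul_le_mul_of_nonneg_left (srt_lip x y) h0
    · have h2 : ‖x - y‖ = 0 := by
        have := norm_nonneg (x - y)
        nlinarith
      have h3 := srt_lip x y
      have h4 := norm_nonneg (srt x - srt y)
      rw [h2] at h3 ⊢
      rw [le_antisymm h3 h4]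
  refine (Finset.sum_le_sum h1).trans ?_
  rw [Finset.sum_const, LE_card, nsmul_eq_mul]
  linarith

theorem sy_bd (R : Fin n → Fin n → Prop) (hR : 0 < Lc R) (u : Eu (Fin n) → ℝ) (B : ℝ)
    (h0 : ∀ x, 0 ≤ u x) (h1 : ∀ x, u x ≤ B) (x : Eu (Fin n)) : 0 ≤ sy R u x ∧ sy R u x ≤ B := by
  have hN : (0 : ℝ) < Lc R := by exact_mod_cast hR
  unfold sy
  refine ⟨div_nonneg (Finset.sum_nonneg fun _ _ => h0 _) hN.le, ?_⟩
  rw [div_le_iff₀ hN]
  refine (Finset.sum_le_sum fun q _ => h1 _).trans ?_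
  rw [Finset.sum_const, LE_card, nsmul_eq_mul]
  linarith

open Classical in
/-- the sum over the permutations of a point -/
theorem ptw (R : Fin n → Fin n → Prop) (u : Eu (Fin n) → ℝ≥0∞) (x : Eu (Fin n))
    (hx : ∀ i j, i ≠ j → x i ≠ x j) :
    ∑ p : Equiv.Perm (Fin n), (coneE R).indicator u (WithLp.toLp 2 fun i => x (p i)) =
      ∑ q ∈ LE R, u (WithLp.toLp 2 fun i => srt x (q i)) := by
  obtain ⟨a, ha⟩ : ∃ a, a = Tuple.sort (fun i => x i) := ⟨_, rfl⟩
  have hs := srt_strict x hx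
  have e0 : ∀ (p : Equiv.Perm (Fin n)) (i : Fin n), x (p i) = srt x ((a⁻¹ * p) i) := by
    intro p i
    have h2 : a ((a⁻¹ * p) i) = p i := by simp
    rw [srt_apply, ← ha, h2]
  have h1 : ∀ p : Equiv.Perm (Fin n), (coneE R).indicator u (WithLp.toLp 2 fun i => x (p i)) =
      if (∀ i j, R i j → x (p i) ≤ x (p j)) then u (WithLp.toLp 2 fun i => x (p i)) else 0 := by
    intro p
    by_cases hp : ∀ i j, R i j → x (p i) ≤ x (p j)
    · rw [if_pos hp]
      exact indicator_of_mem (show (WithLp.toLp 2 fun i => x (p i) : Eu (Fin n)) ∈ coneE R from hp) u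
    · rw [if_neg hp]
      exact indicator_of_notMem
        (show (WithLp.toLp 2 fun i => x (p i) : Eu (Fin n)) ∉ coneE R from hp) u
  rw [Finset.sum_congr rfl fun p _ => h1 p, ← Finset.sum_filter]
  unfold LE
  refine Finset.sum_bij' (fun p _ => a⁻¹ * p) (fun q _ => a * q) ?_ ?_ ?_ ?_ ?_
  · intro p hp
    rw [Finset.mem_filter] at hp ⊢
    refine ⟨Finset.mem_univ _, fun i j hij => ?_⟩
    have h2 := hp.2 i j hij
    rw [e0, e0] at h2
    exact hs.le_iff_le.1 h2
  · intro q hq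
    rw [Finset.mem_filter] at hq ⊢
    refine ⟨Finset.mem_univ _, fun i j hij => ?_⟩
    rw [e0, e0]
    refine hs.le_iff_le.2 ?_
    simpa using hq.2 i j hij
  · intro p _
    simp
  · intro q _
    simp
  · intro p _
    congr 2
    funext i
    exact e0 p i

/-- integrals over order cones with symmetric weights -/
theorem symU (R : Fin n → Fin n → Prop) (u w : Eu (Fin n) → ℝ≥0∞) (hu : Measurable u)
    (hw : Measurable w)
    (hs : ∀ (p : Equiv.Perm (Fin n)) (x : Eu (Fin n)), w (WithLp.toLp 2 fun i => x (p i)) = w x) :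
    (Fintype.card (Equiv.Perm (Fin n)) : ℝ≥0∞) * ∫⁻ x in coneE R, u x * w x =
      ∫⁻ x, (∑ q ∈ LE R, u (WithLp.toLp 2 fun i => srt x (q i))) * w x := by
  have hc := coneE_meas (n := n) R
  have h0 : Measurable ((coneE R).indicator u) := hu.indicator hc
  have h00 : Measurable fun x => (coneE R).indicator u x * w x := h0.mul hw
  have e1 : ∫⁻ x in coneE R, u x * w x = ∫⁻ x, (coneE R).indicator u x * w x := by
    rw [← lintegral_indicator hc]
    refine lintegral_congr fun x => ?_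
    by_cases hx : x ∈ coneE R
    · rw [indicator_of_mem hx, indicator_of_mem hx]
    · rw [indicator_of_notMem hx, indicator_of_notMem hx, zero_mul]
  calc (Fintype.card (Equiv.Perm (Fin n)) : ℝ≥0∞) * ∫⁻ x in coneE R, u x * w x
      = ∑ _p : Equiv.Perm (Fin n), ∫⁻ x, (coneE R).indicator u x * w x := by
        rw [e1, Finset.sum_const, Finset.card_univ, nsmul_eq_mul]
    _ = ∑ p : Equiv.Perm (Fin n), ∫⁻ x : Eu (Fin n), (coneE R).indicator u
          (WithLp.toLp 2 fun i => x (p i)) * w x := by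
        refine Finset.sum_congr rfl fun p _ => ?_
        rw [← (permE p).lintegral_comp h00]
        refine lintegral_congr fun x => ?_
        rw [hs]
    _ = ∫⁻ x : Eu (Fin n), ∑ p : Equiv.Perm (Fin n), (coneE R).indicator u
          (WithLp.toLp 2 fun i => x (p i)) * w x := by
        rw [lintegral_finsetSum]
        exact fun p _ => (h0.comp (permE p).measurable).mul hw
    _ = _ := by
        refine lintegral_congr_ae ?_
        filter_upwards [ae_good (n := n) ∅ Set.finite_empty] with x hx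
        rw [← Finset.sum_mul, ptw R u x hx.2]

/-- the transfer identity -/
theorem trI (R : Fin n → Fin n → Prop) (hR : 0 < Lc R) (u : Eu (Fin n) → ℝ) (h0 : ∀ x, 0 ≤ u x)
    (hu : Measurable u) (w : Eu (Fin n) → ℝ≥0∞) (hw : Measurable w)
    (hs : ∀ (p : Equiv.Perm (Fin n)) (x : Eu (Fin n)), w (WithLp.toLp 2 fun i => x (p i)) = w x) :
    (∫⁻ x, ENNReal.ofReal (sy R u x) * w x) * ∫⁻ x in coneE R, w x =
      (∫⁻ x, w x) * ∫⁻ x in coneE R, ENNReal.ofReal (u x) * w x := by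
  have hN : (0 : ℝ) < Lc R := by exact_mod_cast hR
  obtain ⟨N, hNd⟩ : ∃ N : ℝ≥0∞, N = (Lc R : ℝ≥0∞) := ⟨_, rfl⟩
  obtain ⟨c, hcd⟩ : ∃ c : ℝ≥0∞, c = (Fintype.card (Equiv.Perm (Fin n)) : ℝ≥0∞) := ⟨_, rfl⟩
  have hN0 : N ≠ 0 := by
    rw [hNd]
    exact_mod_cast hR.ne'
  have hNt : N ≠ ⊤ := by
    rw [hNd]
    exact ENNReal.natCast_ne_top _
  have hc0 : c ≠ 0 := by
    rw [hcd]
    exact_mod_cast Fintype.card_ne_zero
  have hct : c ≠ ⊤ := by
    rw [hcd]
    exact ENNReal.natCast_ne_top _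
  have e1 := symU R (fun x => ENNReal.ofReal (u x)) w hu.ennreal_ofReal hw hs
  have e2 := symU R (fun _ => 1) w measurable_const hw hs
  rw [← hcd] at e1 e2
  have e3 : ∀ x, (∑ q ∈ LE R, ENNReal.ofReal (u (WithLp.toLp 2 fun i => srt x (q i)))) * w x =
      N * (ENNReal.ofReal (sy R u x) * w x) := by
    intro x
    rw [← mul_assoc]
    congr 1
    unfold sy
    rw [hNd, ← ENNReal.ofReal_sum_of_nonneg fun q _ => h0 _]
    have h1 : ((Lc R : ℕ) : ℝ≥0∞) = ENNReal.ofReal (Lc R : ℝ) := (ENNReal.ofReal_natCast _).symm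
    rw [h1, ← ENNReal.ofReal_mul hN.le, mul_div_cancel₀ _ hN.ne']
  simp only [e3] at e1
  simp only [one_mul, Finset.sum_const, LE_card, nsmul_eq_mul, mul_one] at e2
  rw [← hNd] at e2
  rw [lintegral_const_mul' _ _ hNt] at e1 e2
  have h5 : N * c ≠ 0 := mul_ne_zero hN0 hc0
  have h6 : N * c ≠ ⊤ := ENNReal.mul_ne_top hNt hct
  refine (ENNReal.mul_right_inj h5 h6).1 ?_
  obtain ⟨A, hA⟩ : ∃ A, A = ∫⁻ x, ENNReal.ofReal (sy R u x) * w x := ⟨_, rfl⟩
  obtain ⟨B, hB⟩ : ∃ B, B = ∫⁻ x in coneE R, ENNReal.ofReal (u x) * w x := ⟨_, rfl⟩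
  obtain ⟨W, hW⟩ : ∃ W, W = ∫⁻ x, w x := ⟨_, rfl⟩
  obtain ⟨D, hD⟩ : ∃ D, D = ∫⁻ x in coneE R, w x := ⟨_, rfl⟩
  rw [← hA, ← hB] at e1
  rw [← hW, ← hD] at e2
  rw [← hA, ← hB, ← hW, ← hD]
  calc N * c * (A * D) = (N * A) * (c * D) := by ring
    _ = (c * B) * (N * W) := by rw [e1, e2]
    _ = N * c * (W * B) := by ring

theorem srt_meas : Continuous (srt : Eu (Fin n) → Eu (Fin n)) := by
  have : LipschitzWith 1 (srt : Eu (Fin n) → Eu (Fin n)) :=
    LipschitzWith.of_dist_le_mul fun x y => by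
      rw [dist_eq_norm, dist_eq_norm]
      simpa using srt_lip x y
  exact this.continuous

end Pool.Agent.U959.OO
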