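import Pool.Agent.U959.OC.Fin
import Pool.Agent.U959.OO.Srt
import Pool.Agent.R476.OR.Stm
import Pool.Agent.W800.KH.Mink
import Pool.Agent.Y506.FF.Stm

/-!
# Concentration on sublevel sets intersected with order cones
-/

set_option autoImplicit false

namespace Pool.Agent.U959.OO

open MeasureTheory Set Filter Topology
open scoped ENNReal InnerProductSpace
open Pool.Agent.W695.KH (Eu EU EV VV Sm Pot ga Nn)
open Pool.Agent.U959.OC
open Pool.Agent.R372.OP.SYM (Lc)
open Pool.Agent.R476.OR (NV SV KV LVL S_STI)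
open Pool.Agent.Y506.FF (LCon)

variable {n : ℕ}

theorem coneE_closed (R : Fin n → Fin n → Prop) : IsClosed (coneE R) := by
  have h : coneE R = ⋂ i, ⋂ j, ⋂ (_ : R i j), {x : Eu (Fin n) | x i ≤ x j} := by
    ext x
    simp only [coneE, mem_ofPred_eq, mem_iInter]
  rw [h]
  exact isClosed_iInter fun i => isClosed_iInter fun j => isClosed_iInter fun _ =>
    isClosed_le (by fun_prop) (by fun_prop)

theorem VV_le {κ : Type} [Fintype κ] {D : Set (Eu κ)} (hD : IsCompact D) (hv : 0 < volume D)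
    (v : Eu κ → ℝ) (hc : Continuous v) (m : ℝ) :
    VV D v ≤ (∫ x in D, (v x - m) ^ 2) / (volume D).toReal := by
  have hfin : volume D ≠ ⊤ := hD.measure_lt_top.ne
  have hV : 0 < (volume D).toReal := ENNReal.toReal_pos hv.ne' hfin
  have i1 : IntegrableOn v D := hc.continuousOn.integrableOn_compact hD
  have i2 : IntegrableOn (fun x => v x ^ 2) D := (hc.pow 2).continuousOn.integrableOn_compact hD
  have e1 : ∫ x in D, (v x - m) ^ 2 = (∫ x in D, v x ^ 2) - 2 * m * (∫ x in D, v x) +
      m ^ 2 * (volume D).toReal := by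
    have h1 : ∀ x, (v x - m) ^ 2 = (v x ^ 2 - 2 * m * v x) + m ^ 2 := fun x => by ring
    simp only [h1]
    have i3 : IntegrableOn (fun _ : Eu κ => m ^ 2) D := integrable_const_iff.2 (Or.inr
      ⟨by simpa using hD.measure_lt_top⟩)
    have i4 : IntegrableOn (fun x => 2 * m * v x) D := i1.const_mul _
    have e2 : ∫ x in D, ((v x ^ 2 - 2 * m * v x) + m ^ 2) = (∫ x in D, (v x ^ 2 - 2 * m * v x)) +
        ∫ _ in D, m ^ 2 := integral_add (i2.sub i4) i3
    have e3 : ∫ x in D, (v x ^ 2 - 2 * m * v x) = (∫ x in D, v x ^ 2) -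
        ∫ x in D, 2 * m * v x := integral_sub i2 i4
    rw [e2, e3, integral_const_mul, setIntegral_const, smul_eq_mul, Measure.real,
      mul_comm (m ^ 2)]
  unfold VV EV
  rw [e1]
  have h2 : ((∫ x in D, v x ^ 2) - 2 * m * (∫ x in D, v x) + m ^ 2 * (volume D).toReal) /
      (volume D).toReal - ((∫ x in D, v x ^ 2) / (volume D).toReal -
        ((∫ x in D, v x) / (volume D).toReal) ^ 2) =
      ((∫ x in D, v x) / (volume D).toReal - m) ^ 2 := by
    field_simp
    ring
  have h3 := sq_nonneg ((∫ x in D, v x) / (volume D).toReal - m)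
  linarith

/-- there are linear extensions -/
theorem Lc_pos (R : Fin n → Fin n → Prop) (hanti : ∀ a b, R a b → R b a → a = b)
    (htr : ∀ a b c, R a b → R b c → R a c) : 0 < Lc R := by
  have hgeo := Pool.Agent.R972.OP.geo_all n (st R)
  have hint : (interior (Pool.Agent.R972.OP.OE (st R))).Nonempty := by
    refine hgeo.2.2 (fun a b c hab hbc => ⟨htr a b c hab.1 hbc.1, fun hac => ?_⟩)
      (fun a b hab hba => absurd (hanti a b hab.1 hba.1) hab.2)
    subst hac
    exact hab.2 (hanti a b hab.1 hbc.1)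
  have hpos : 0 < volume (interior (Pool.Agent.R972.OP.OE (st R))) :=
    isOpen_interior.measure_pos volume hint
  have hae := ae_good (n := n) ∅ Set.finite_empty
  obtain ⟨x, hx1, hx2⟩ : ∃ x ∈ interior (Pool.Agent.R972.OP.OE (st R)), ∀ i j, i ≠ j → x i ≠ x j := by
    by_contra hcon
    push Not at hcon
    refine hpos.ne' (measure_mono_null (fun x hx => ?_) (ae_iff.1 hae))
    intro hx'
    obtain ⟨i, j, hij, hxe⟩ := hcon x hx
    exact hx'.2 i j hij hxe
  have hx3 := (interior_subset hx1).2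
  classical
  have h1 := cntE R x hx2
  rw [← h1]
  refine Finset.card_pos.2 ⟨1, ?_⟩
  rw [Finset.mem_filter]
  refine ⟨Finset.mem_univ _, fun i j hij => ?_⟩
  by_cases hne : i = j
  · rw [hne]
  · exact hx3 i j ⟨hij, hne⟩

/-- Gaussian averages of symmetrised functions -/
theorem smooth (F : Eu (Fin n) → ℝ) (l ε : ℝ) (hε : 0 < ε) (hl0 : 0 ≤ l) (hl1 : l ≤ 1)
    (h0 : ∀ x, 0 ≤ F x) (h1 : ∀ x, F x ≤ 4) (hl : ∀ x y, |F x - F y| ≤ 4 * l * ‖x - y‖) :
    ∃ U : Eu (Fin n) → ℝ, ContDiff ℝ 1 U ∧ (∀ x, 0 ≤ U x) ∧ (∀ x, U x ≤ 4) ∧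
      (∀ x, ‖fderiv ℝ U x‖ ≤ 4 * l) ∧ ∀ x, |U x - F x| ≤ ε := by
  obtain ⟨hpos, -, -, -⟩ := Pool.Agent.W902.KH.t_gauss (Fin n)
  obtain ⟨v, hv⟩ : ∃ v : Eu (Fin n) → ℝ, v = fun x => F x / 4 := ⟨_, rfl⟩
  have hb : ∀ x, |v x| ≤ 1 := by
    intro x
    rw [hv, abs_of_nonneg (div_nonneg (h0 x) (by norm_num))]
    have := h1 x
    linarith
  have hvl : ∀ x y, |v x - v y| ≤ l * ‖x - y‖ := by
    intro x y
    rw [hv]
    dsimp only
    rw [← sub_div, abs_div, abs_of_pos (by norm_num : (0 : ℝ) < 4), div_le_iff₀ (by norm_num)]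
    have := hl x y
    linarith
  have hvl1 : ∀ x y, |v x - v y| ≤ 1 * ‖x - y‖ := fun x y =>
    (hvl x y).trans (mul_le_mul_of_nonneg_right hl1 (norm_nonneg _))
  obtain ⟨c, hc⟩ : ∃ c : ℝ, c = ∫ w : Eu (Fin n), ‖w‖ ^ 1 * ga w := ⟨_, rfl⟩
  have hc0 : 0 ≤ c := by
    rw [hc]
    exact integral_nonneg fun w => mul_nonneg (by positivity) (hpos w).le
  obtain ⟨σ, hσ⟩ : ∃ σ : ℝ, σ = ε / 4 / (c + 1) := ⟨_, rfl⟩
  have hσ0 : 0 < σ := by rw [hσ]; positivity
  obtain ⟨hg1, hg4, hg2, -, -⟩ := Pool.Agent.W327.KH.t_grad Pool.Agent.W902.KH.t_gauss (Fin n) σ l v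
    hσ0 hl0 hb hvl
  have hcl : ∀ x, |Nn σ v x - v x| ≤ ε / 4 := by
    intro x
    refine (Pool.Agent.W800.KH.Nn_close v hb hvl1 σ hσ0 x).trans ?_
    rw [← hc, hσ, div_mul_eq_mul_div, div_le_iff₀ (by linarith)]
    nlinarith
  refine ⟨fun x => 4 * Nn σ v x, contDiff_const.mul hg1, fun x => ?_, fun x => ?_, fun x => ?_,
    fun x => ?_⟩
  · refine mul_nonneg (by norm_num) (integral_nonneg fun w => mul_nonneg ?_ (hpos w).le)
    rw [hv]
    exact div_nonneg (h0 _) (by norm_num)
  · have := (abs_le.1 (hg4 x)).2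
    linarith
  · have hd : HasFDerivAt (fun x => 4 * Nn σ v x) ((4 : ℝ) • fderiv ℝ (Nn σ v) x) x :=
      (hg1.differentiable one_ne_zero x).hasFDerivAt.const_mul 4
    rw [hd.fderiv, norm_smul, Real.norm_eq_abs, abs_of_pos (by norm_num : (0 : ℝ) < 4)]
    exact mul_le_mul_of_nonneg_left (hg2 x) (by norm_num)
  · have e : 4 * Nn σ v x - F x = 4 * (Nn σ v x - v x) := by
      rw [hv]
      ring
    show |4 * Nn σ v x - F x| ≤ ε
    rw [e, abs_mul, abs_of_pos (by norm_num : (0 : ℝ) < 4)]
    have := hcl x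
    linarith

theorem lcd_of {V V' : ℝ → ℝ} (hV : NV V V') : LCD fun t => Real.exp (-V t) := by
  refine ⟨fun t => (Real.exp_pos _).le, hV.nd.cont.measurable, hV.nd.lc, ?_⟩
  rw [← ofReal_integral_eq_lintegral_ofReal hV.nd.int0
    (Eventually.of_forall fun t => (Real.exp_pos _).le), hV.nd.mass, ENNReal.ofReal_one]

theorem var_law {V V' : ℝ → ℝ} (hV : NV V V') :
    ProbabilityTheory.variance (fun t : ℝ => t) (law fun t => Real.exp (-V t)) ≤ 1 := by
  have hL := lcd_of hV
  have := hL.prob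
  refine (ProbabilityTheory.variance_le_expectation_sq (by fun_prop)).trans (le_of_eq ?_)
  unfold law
  rw [integral_withDensity_eq_integral_toReal_smul hL.meas.ennreal_ofReal
    (Eventually.of_forall fun x => ENNReal.ofReal_lt_top)]
  rw [← hV.nd.var]
  refine integral_congr_ae (Eventually.of_forall fun t => ?_)
  simp only [smul_eq_mul, Pi.pow_apply]
  rw [ENNReal.toReal_ofReal (Real.exp_pos _).le, mul_comm]

/-- the density of the product -/
theorem dens_SV (V : ℝ → ℝ) (x : Eu (Fin n)) :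
    ∏ i, ENNReal.ofReal (Real.exp (-V (x i))) =
      ENNReal.ofReal (Real.exp (-SV (fun _ : Fin n => V) x)) := by
  rw [← ENNReal.ofReal_prod_of_nonneg fun i _ => (Real.exp_pos _).le, ← Real.exp_sum]
  unfold SV
  rw [Finset.sum_neg_distrib]

/-- **concentration** -/
theorem conc (hsti : S_STI) (δ : ℝ) (hδ : 0 < δ) : ∃ κ : ℝ, 0 < κ ∧ ∀ (n : ℕ) (V V' : ℝ → ℝ),
    NV V V' → ∀ E : ℝ, LVL (fun _ : Fin n => V) E → ∀ R : Fin n → Fin n → Prop,
    (∀ a b, R a b → R b a → a = b) → (∀ a b c, R a b → R b c → R a c) →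
    LCon (KV (fun _ : Fin n => V) E ∩ coneE R) κ δ := by
  obtain ⟨C, hC, H⟩ := hsti
  have hC0 : 0 < 11 * C + 1 := by linarith
  obtain ⟨κ, hκd⟩ : ∃ κ, κ = min (1 / 7) (δ / (11 * C + 1)) := ⟨_, rfl⟩
  have hκ : 0 < κ := by
    rw [hκd]
    exact lt_min (by norm_num) (by positivity)
  have hκ7 : κ ≤ 1 / 7 := by rw [hκd]; exact min_le_left _ _
  have hκδ : (11 * C + 1) * κ ≤ δ := by
    have : κ ≤ δ / (11 * C + 1) := by rw [hκd]; exact min_le_right _ _
    rw [le_div_iff₀ hC0] at this
    linarith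
  refine ⟨κ, hκ, fun n V V' hV E hE R hanti htr v hv hv1 hvl => ?_⟩
  have hLc := Lc_pos R hanti htr
  have hL := lcd_of hV
  have hVc : Continuous V := by
    have := hV.cv.der
    exact continuous_iff_continuousAt.2 fun t => (this t).continuousAt
  have hSc : Continuous (SV (fun _ : Fin n => V)) := by
    unfold SV
    refine continuous_finsetSum _ fun i _ => ?_
    fun_prop
  obtain ⟨K, hK⟩ : ∃ K, K = KV (fun _ : Fin n => V) E := ⟨_, rfl⟩
  have hKcl : IsClosed K := by
    rw [hK]
    exact isClosed_le hSc continuous_const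
  have hKb : Bornology.IsBounded K := by rw [hK]; exact hE.bdd
  have hKp : 0 < volume K := by rw [hK]; exact hE.pos
  have hKc : IsCompact K := Metric.isCompact_of_isClosed_isBounded hKcl hKb
  have hKf : volume K ≠ ⊤ := hKc.measure_lt_top.ne
  have hKm : MeasurableSet K := hKcl.measurableSet
  have hCm : MeasurableSet (coneE R) := coneE_meas R
  have hDc : IsCompact (K ∩ coneE R) := hKc.inter_right (coneE_closed R)
  have hDf : volume (K ∩ coneE R) ≠ ⊤ := hDc.measure_lt_top.ne
  have hKs : ∀ (p : Equiv.Perm (Fin n)) (x : Eu (Fin n)),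
      K.indicator (1 : Eu (Fin n) → ℝ≥0∞) (WithLp.toLp 2 fun i => x (p i)) = K.indicator 1 x := by
    intro p x
    have h1 : (WithLp.toLp 2 fun i => x (p i) : Eu (Fin n)) ∈ K ↔ x ∈ K := by
      rw [hK]
      unfold KV SV
      rw [mem_ofPred_eq, mem_ofPred_eq]
      have : ∑ i, V (x (p i)) = ∑ i, V (x i) := Equiv.sum_comp p fun i => V (x i)
      rw [← this]
    by_cases hx : x ∈ K
    · rw [indicator_of_mem (h1.2 hx), indicator_of_mem hx]
      rfl
    · rw [indicator_of_notMem (fun h => hx (h1.1 h)), indicator_of_notMem hx]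
  -- positive volume
  have hDp : 0 < volume (K ∩ coneE R) := by
    have e := symU R (fun _ => 1) (K.indicator 1) measurable_const (measurable_one.indicator hKm) hKs
    simp only [one_mul, Finset.sum_const, LE_card, nsmul_eq_mul, mul_one] at e
    rw [lintegral_const_mul' _ _ (ENNReal.natCast_ne_top _)] at e
    rw [pos_iff_ne_zero]
    intro h0
    have h1 : ∫⁻ x in coneE R, K.indicator (1 : Eu (Fin n) → ℝ≥0∞) x = 0 := by
      rw [lintegral_indicator_one hKm, Measure.restrict_apply hKm]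
      exact h0
    rw [h1, mul_zero, lintegral_indicator_one hKm] at e
    have h2 : ((Lc R : ℕ) : ℝ≥0∞) ≠ 0 := by exact_mod_cast hLc.ne'
    exact (mul_ne_zero h2 hKp.ne') e.symm
  -- the mean for the product
  obtain ⟨hprob, hZne, -, m0, hm0, hmv, hPoi, -⟩ := facts hL R hanti htr
  have hipr := iid_prob (n := n) hL
  obtain ⟨m, hm⟩ : ∃ m, m = ∫ x, v x ∂(nu (fun t => Real.exp (-V t)) R) := ⟨_, rfl⟩
  have hm1 : |m| ≤ 1 := by
    have h1 := norm_integral_le_of_norm_le_const (μ := nu (fun t => Real.exp (-V t)) R) (f := v)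
      (C := 1) (Eventually.of_forall hv1)
    rw [hm]
    simpa using h1
  have hvlip : ∀ x y, |v x - v y| ≤ κ * ‖x - y‖ := by
    intro x y
    have := Convex.norm_image_sub_le_of_norm_fderiv_le (𝕜 := ℝ) (f := v) (s := univ) (C := κ)
      (x := y) (y := x) (fun z _ => hv.differentiable one_ne_zero z) (fun z _ => hvl z) convex_univ
      (mem_univ _) (mem_univ _)
    simpa using this
  obtain ⟨u, hu⟩ : ∃ u : Eu (Fin n) → ℝ, u = fun x => (v x - m) ^ 2 := ⟨_, rfl⟩
  have hu0 : ∀ x, 0 ≤ u x := fun x => by rw [hu]; exact sq_nonneg _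
  have hu4 : ∀ x, u x ≤ 4 := by
    intro x
    rw [hu]
    have h1 := abs_le.1 (hv1 x)
    have h2 := abs_le.1 hm1
    nlinarith [sq_nonneg (v x - m)]
  have huc : Continuous u := by
    rw [hu]
    exact (hv.continuous.sub continuous_const).pow 2
  have hul : ∀ x y, |u x - u y| ≤ 4 * κ * ‖x - y‖ := by
    intro x y
    rw [hu]
    have e : (v x - m) ^ 2 - (v y - m) ^ 2 = (v x - v y) * (v x + v y - 2 * m) := by ring
    dsimp only
    rw [e, abs_mul]
    have h1 : |v x + v y - 2 * m| ≤ 4 := by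
      have h1 := abs_le.1 (hv1 x)
      have h2 := abs_le.1 (hv1 y)
      have h3 := abs_le.1 hm1
      rw [abs_le]
      constructor <;> linarith
    have h2 := mul_le_mul (hvlip x y) h1 (abs_nonneg _) (by positivity)
    linarith
  -- the symmetrised function
  obtain ⟨U, hU1, hU2, hU3, hU4, hU5⟩ := smooth (sy R u) κ (κ ^ 2) (by positivity) hκ.le (by linarith)
    (fun x => (sy_bd R hLc u 4 hu0 hu4 x).1) (fun x => (sy_bd R hLc u 4 hu0 hu4 x).2)
    (sy_lip R hLc u (4 * κ) hul)
  have hsyc : Continuous (sy R u) := by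
    unfold sy
    refine Continuous.div_const (continuous_finsetSum _ fun q _ => huc.comp ?_) _
    have h1 : Continuous fun y : Eu (Fin n) => (WithLp.toLp 2 fun i => y (q i) : Eu (Fin n)) := by
      fun_prop
    exact h1.comp srt_meas
  -- the mean of the symmetrised function for the product
  obtain ⟨w, hw⟩ : ∃ w : Eu (Fin n) → ℝ≥0∞, w = fun x => ∏ i, ENNReal.ofReal (Real.exp (-V (x i))) :=
    ⟨_, rfl⟩
  have hwm : Measurable w := by rw [hw]; exact dens_meas (n := n) hL
  have hiid : iid n (fun t => Real.exp (-V t)) = volume.withDensity w := by rw [hw]; rfl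
  have hw1 : ∫⁻ x, w x = 1 := by
    have := hipr.measure_univ
    rw [hiid, withDensity_apply _ MeasurableSet.univ, setLIntegral_univ] at this
    exact this
  have e1 := trI R hLc u hu0 huc.measurable w hwm (fun p x => by
    rw [hw]
    exact Equiv.prod_comp p fun i => ENNReal.ofReal (Real.exp (-V (x i))))
  have hZ : ∫⁻ x in coneE R, w x = iid n (fun t => Real.exp (-V t)) (coneE R) := by
    rw [hiid, withDensity_apply _ hCm]
  have hnu : ∫⁻ x in coneE R, ENNReal.ofReal (u x) * w x =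
      iid n (fun t => Real.exp (-V t)) (coneE R) *
        ∫⁻ x, ENNReal.ofReal (u x) ∂(nu (fun t => Real.exp (-V t)) R) := by
    unfold nu ProbabilityTheory.cond
    rw [lintegral_smul_measure, smul_eq_mul, ← mul_assoc, ENNReal.mul_inv_cancel hZne
      (measure_ne_top _ _), one_mul, hiid,
      setLIntegral_withDensity_eq_setLIntegral_mul _ hwm huc.measurable.ennreal_ofReal hCm]
    refine lintegral_congr fun x => ?_
    simp only [Pi.mul_apply]
    ring
  rw [hw1, one_mul, hZ, hnu, mul_comm, ENNReal.mul_right_inj hZne (measure_ne_top _ _)] at e1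
  have hPu : ∫⁻ x, ENNReal.ofReal (u x) ∂(nu (fun t => Real.exp (-V t)) R) ≤
      ENNReal.ofReal (48 * κ ^ 2) := by
    have hui : Integrable u (nu (fun t => Real.exp (-V t)) R) :=
      Integrable.mono' (integrable_const (4 : ℝ)) huc.aestronglyMeasurable
        (Eventually.of_forall fun x => by
          rw [Real.norm_eq_abs, abs_of_nonneg (hu0 x)]
          exact hu4 x)
    rw [← ofReal_integral_eq_lintegral_ofReal hui (Eventually.of_forall hu0)]
    refine ENNReal.ofReal_le_ofReal ?_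
    have h1 := hPoi v 1 κ hv hv1 hvl
    have hvi : Integrable v (nu (fun t => Real.exp (-V t)) R) :=
      Integrable.mono' (integrable_const (1 : ℝ)) hv.continuous.aestronglyMeasurable
        (Eventually.of_forall fun x => hv1 x)
    have hvi2 : Integrable (fun x => v x ^ 2) (nu (fun t => Real.exp (-V t)) R) :=
      Integrable.mono' (integrable_const (1 : ℝ)) (hv.continuous.pow 2).aestronglyMeasurable
        (Eventually.of_forall fun x => by
          rw [Real.norm_eq_abs, abs_pow]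
          exact pow_le_one₀ (abs_nonneg _) (hv1 x))
    have e2 : ∫ x, u x ∂(nu (fun t => Real.exp (-V t)) R) =
        (∫ x, v x ^ 2 ∂(nu (fun t => Real.exp (-V t)) R)) - m ^ 2 := by
      have e3 : u = fun x => v x ^ 2 - (2 * m) * v x + m ^ 2 := by
        rw [hu]
        funext x
        ring
      have h5 : Integrable (fun x => v x ^ 2 - (2 * m) * v x) (nu (fun t => Real.exp (-V t)) R) :=
        hvi2.sub (hvi.const_mul _)
      rw [e3, integral_add h5 (integrable_const _), integral_sub hvi2 (hvi.const_mul _),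
        integral_const_mul, ← hm, integral_const]
      simp only [probReal_univ, one_smul]
      ring
    rw [e2]
    rw [← hm] at h1
    refine h1.trans ?_
    have h2 : ∫ x, ‖fderiv ℝ v x‖ ^ 2 ∂(nu (fun t => Real.exp (-V t)) R) ≤ κ ^ 2 := by
      have h3 := norm_integral_le_of_norm_le_const (μ := nu (fun t => Real.exp (-V t)) R)
        (f := fun x => ‖fderiv ℝ v x‖ ^ 2) (C := κ ^ 2) (Eventually.of_forall fun x => by
          rw [Real.norm_eq_abs, abs_of_nonneg (sq_nonneg _)]
          exact pow_le_pow_left₀ (norm_nonneg _) (hvl x) 2)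
      simp only [probReal_univ, mul_one] at h3
      exact (le_abs_self _).trans h3
    have h3 : 1 / Real.exp (-V m0) ^ 2 ≤ 48 := by
      have := var_law hV
      linarith
    exact mul_le_mul h3 h2 (integral_nonneg fun x => sq_nonneg _) (by norm_num)
  have hexpi : Integrable fun x : Eu (Fin n) => Real.exp (-SV (fun _ : Fin n => V) x) := by
    refine ⟨(Real.continuous_exp.comp hSc.neg).aestronglyMeasurable, ?_⟩
    rw [hasFiniteIntegral_iff_ofReal (Eventually.of_forall fun x => (Real.exp_pos _).le)]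
    have h1 : ∫⁻ x, w x = ∫⁻ x, ENNReal.ofReal (Real.exp (-SV (fun _ : Fin n => V) x)) := by
      rw [hw]
      exact lintegral_congr fun x => dens_SV V x
    rw [← h1, hw1]
    exact ENNReal.one_lt_top
  have hexp1 : ∫ x, Real.exp (-SV (fun _ : Fin n => V) x) = 1 := by
    have h1 : ENNReal.ofReal (∫ x, Real.exp (-SV (fun _ : Fin n => V) x)) = 1 := by
      rw [ofReal_integral_eq_lintegral_ofReal hexpi
        (Eventually.of_forall fun x => (Real.exp_pos _).le), ← hw1, hw]
      exact lintegral_congr fun x => (dens_SV V x).symm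
    have h2 := congrArg ENNReal.toReal h1
    rwa [ENNReal.toReal_ofReal (integral_nonneg fun x => (Real.exp_pos _).le),
      ENNReal.toReal_one] at h2
  have hsyi : Integrable fun x : Eu (Fin n) => sy R u x * Real.exp (-SV (fun _ : Fin n => V) x) := by
    refine Integrable.mono' (hexpi.const_mul 4)
      (hsyc.mul (Real.continuous_exp.comp hSc.neg)).aestronglyMeasurable
      (Eventually.of_forall fun x => ?_)
    obtain ⟨h1, h2⟩ := sy_bd R hLc u 4 hu0 hu4 x
    rw [Real.norm_eq_abs, abs_of_nonneg (mul_nonneg h1 (Real.exp_pos _).le)]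
    exact mul_le_mul_of_nonneg_right h2 (Real.exp_pos _).le
  have hsyE : ∫ x, sy R u x * Real.exp (-SV (fun _ : Fin n => V) x) ≤ 48 * κ ^ 2 := by
    rw [← ENNReal.ofReal_le_ofReal_iff (by positivity), ofReal_integral_eq_lintegral_ofReal hsyi
      (Eventually.of_forall fun x => mul_nonneg (sy_bd R hLc u 4 hu0 hu4 x).1 (Real.exp_pos _).le)]
    refine le_trans (le_of_eq ?_) hPu
    rw [← e1, hw]
    refine lintegral_congr fun x => ?_
    dsimp only
    rw [dens_SV, ENNReal.ofReal_mul (sy_bd R hLc u 4 hu0 hu4 x).1]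
  have hUE : ∫ x, U x * Real.exp (-SV (fun _ : Fin n => V) x) ≤ (7 * κ) ^ 2 := by
    have h1 : ∫ x, U x * Real.exp (-SV (fun _ : Fin n => V) x) ≤
        ∫ x, (sy R u x * Real.exp (-SV (fun _ : Fin n => V) x) +
          κ ^ 2 * Real.exp (-SV (fun _ : Fin n => V) x)) := by
      refine integral_mono_of_nonneg (Eventually.of_forall fun x => mul_nonneg (hU2 x)
        (Real.exp_pos _).le) (hsyi.add (hexpi.const_mul _)) (Eventually.of_forall fun x => ?_)
      dsimp only
      rw [← add_mul]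
      refine mul_le_mul_of_nonneg_right ?_ (Real.exp_pos _).le
      have := (abs_le.1 (hU5 x)).2
      linarith
    rw [integral_add hsyi (hexpi.const_mul _), integral_const_mul, hexp1] at h1
    nlinarith
  -- the main inequality
  have key := H n (fun _ => V) (fun _ => V') (fun _ => hV) E hE U (4 * κ) (7 * κ) hU1 hU2 hU3
    (by positivity) hU4 (by positivity) (by linarith) hUE
  rw [← hK] at key
  obtain ⟨vK, hvK⟩ : ∃ vK, vK = (volume K).toReal := ⟨_, rfl⟩
  have hvK0 : 0 < vK := by rw [hvK]; exact ENNReal.toReal_pos hKp.ne' hKf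
  rw [← hvK] at key
  have hsyK : ∫ x in K, sy R u x ≤ δ * vK := by
    have iU : IntegrableOn U K := hU1.continuous.continuousOn.integrableOn_compact hKc
    have h1 : ∫ x in K, sy R u x ≤ ∫ x in K, (U x + κ ^ 2) := by
      refine integral_mono (hsyc.continuousOn.integrableOn_compact hKc)
        (iU.add (integrableOn_const hKf)) fun x => ?_
      have := (abs_le.1 (hU5 x)).1
      show sy R u x ≤ U x + κ ^ 2
      linarith
    rw [integral_add iU (integrableOn_const hKf), setIntegral_const] at h1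
    have h2 : (volume : Measure (Eu (Fin n))).real K • (κ ^ 2 : ℝ) = vK * κ ^ 2 := by
      rw [hvK]
      rfl
    rw [h2] at h1
    have h3 : κ ^ 2 ≤ κ := by nlinarith
    have h4 : vK * κ ^ 2 ≤ vK * κ := mul_le_mul_of_nonneg_left h3 hvK0.le
    calc ∫ x in K, sy R u x ≤ C * (7 * κ + 4 * κ) * vK + vK * κ := by linarith
      _ = ((11 * C + 1) * κ) * vK := by ring
      _ ≤ δ * vK := mul_le_mul_of_nonneg_right hκδ hvK0.le
  -- back to the cone
  have e2 := trI R hLc u hu0 huc.measurable (K.indicator 1) (measurable_one.indicator hKm) hKs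
  have e3 : ∫⁻ x in coneE R, K.indicator (1 : Eu (Fin n) → ℝ≥0∞) x = volume (K ∩ coneE R) := by
    rw [lintegral_indicator_one hKm, Measure.restrict_apply hKm]
  have e4 : ∫⁻ x, K.indicator (1 : Eu (Fin n) → ℝ≥0∞) x = volume K := lintegral_indicator_one hKm
  have e5 : ∫⁻ x, ENNReal.ofReal (sy R u x) * K.indicator (1 : Eu (Fin n) → ℝ≥0∞) x =
      ∫⁻ x in K, ENNReal.ofReal (sy R u x) := by
    rw [← lintegral_indicator hKm]
    refine lintegral_congr fun x => ?_
    by_cases hx : x ∈ K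
    · rw [indicator_of_mem hx, indicator_of_mem hx, Pi.one_apply, mul_one]
    · rw [indicator_of_notMem hx, indicator_of_notMem hx, mul_zero]
  have e6 : ∫⁻ x in coneE R, ENNReal.ofReal (u x) * K.indicator (1 : Eu (Fin n) → ℝ≥0∞) x =
      ∫⁻ x in K ∩ coneE R, ENNReal.ofReal (u x) := by
    rw [← Measure.restrict_restrict hKm, ← lintegral_indicator hKm]
    refine lintegral_congr fun x => ?_
    by_cases hx : x ∈ K
    · rw [indicator_of_mem hx, indicator_of_mem hx, Pi.one_apply, mul_one]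
    · rw [indicator_of_notMem hx, indicator_of_notMem hx, mul_zero]
  rw [e3, e4, e5, e6] at e2
  have i1 : IntegrableOn (sy R u) K := hsyc.continuousOn.integrableOn_compact hKc
  have i2 : IntegrableOn u (K ∩ coneE R) := huc.continuousOn.integrableOn_compact hDc
  rw [← ofReal_integral_eq_lintegral_ofReal i1
      (Eventually.of_forall fun x => (sy_bd R hLc u 4 hu0 hu4 x).1),
    ← ofReal_integral_eq_lintegral_ofReal i2 (Eventually.of_forall hu0)] at e2
  have e7 := congrArg ENNReal.toReal e2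
  rw [ENNReal.toReal_mul, ENNReal.toReal_mul,
    ENNReal.toReal_ofReal (integral_nonneg fun x => (sy_bd R hLc u 4 hu0 hu4 x).1),
    ENNReal.toReal_ofReal (integral_nonneg hu0), ← hvK] at e7
  obtain ⟨vD, hvD⟩ : ∃ vD, vD = (volume (K ∩ coneE R)).toReal := ⟨_, rfl⟩
  have hvD0 : 0 < vD := by rw [hvD]; exact ENNReal.toReal_pos hDp.ne' hDf
  rw [← hvD] at e7
  have h8 := VV_le hDc hDp v hv.continuous m
  rw [← hK]
  refine h8.trans ?_
  rw [← hvD, div_le_iff₀ hvD0]
  have h9 : ∫ x in K ∩ coneE R, (v x - m) ^ 2 = ∫ x in K ∩ coneE R, u x := by rw [hu]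
  rw [h9]
  have h10 : vK * ∫ x in K ∩ coneE R, u x ≤ vK * (δ * vD) := by
    rw [← e7]
    calc (∫ x in K, sy R u x) * vD ≤ (δ * vK) * vD := mul_le_mul_of_nonneg_right hsyK hvD0.le
      _ = vK * (δ * vD) := by ring
  exact le_of_mul_le_mul_left h10 hvK0

end Pool.Agent.U959.OO
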